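import Pool.Agent.Helper27.VF.Goals

/-!
# Project RF: the strengthening of VF to residually finite groups

The induction on the rank is replaced by an induction on the parameter `r` of `Rk A r`.
-/

set_option autoImplicit false

namespace Pool.Agent.Helper67.RF

open Pool.Agent.Helper27.VF

universe u

/-- The parameter of the induction: for every finite set `E` of elements `≠ 1` there is a finite
nontrivial module `M` on which the elements of `E` fix at most `|M| ^ (1/2)` points, with finitely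
many, at most `|M| ^ (r/2)`, derivations. -/
def Rk (A : Type u) [Group A] (r : ℕ) : Prop :=
  ∀ E : Finset A, (1 : A) ∉ E →
    ∃ (M : Type u) (_ : AddCommGroup M) (_ : DistribMulAction A M),
      Finite M ∧ Nontrivial M ∧ (∀ g ∈ E, Nat.card {m : M // g • m = m} ^ 2 ≤ Nat.card M) ∧
      Finite {δ : A → M // IsDer δ} ∧ Nat.card {δ : A → M // IsDer δ} ^ 2 ≤ Nat.card M ^ r

/-- **RKB.** The start.

Proof. Let `A` be generated by `d` elements; `r = 2 d`. Take a normal subgroup `N` of finite index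
with `E ∩ N = ∅` (finite intersection of the given ones) and `M = (A ⧸ N → ZMod 2)` (the module
`Pool.Agent.Helper67.VF.CM N`). A derivation is determined by its values on the generators. An
element `g ∈ E` has no fixed point on `A ⧸ N` (`N` is normal); let `T` be a set of representatives of
the orbits of `⟨g⟩` on `A ⧸ N`; `T` and its complement meet every orbit, so
`(φ, ψ) ↦ (φ on T, ψ on the complement)` is an injection from pairs of fixed points to `M`. -/
def RkbStmt : Prop := ∀ (A : Type u) [Group A], Group.FG A →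
  (∀ a : A, a ≠ 1 → ∃ N : Subgroup A, N.Normal ∧ N.FiniteIndex ∧ a ∉ N) → ∃ r : ℕ, Rk A r

/-- **DRX.** Derivations which vanish on `BB`. (May assume `PthStmt`, `OraStmt`, `OrbStmt`,
`FrdStmt`.) -/
def DrxStmt : Prop := ∀ (A W : Type u) [Group A] [MulAction A W] (G G₀ : SimpleGraph W) (w : W)
  (p : Ultrafilter W), Stg A G G₀ w p → ∀ k : ℕ, Mn A G p k →
  (∀ (a : A) (n : ℕ), 0 < n → a ^ n = 1 → a = 1) → (SS A G p k).Nonempty →
  ∃ g : A, g ≠ 1 ∧ ∀ (M : Type u) [AddCommGroup M] [DistribMulAction A M],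
    ∃ Θ : M → (A → M), (∀ m, IsDer (Θ m) ∧ ∀ b ∈ BB A G p k, Θ m b = 0) ∧
      ∀ m m' : M, Θ m = Θ m' → g • (m - m') = m - m'

/-- **RKS.** The step, purely algebraic.

Proof. For a finite `E ⊆ B` without `1` apply `Rk A r` to the image of `E` in `A` together with `g`.
Let `K` be the set of the derivations `A → M` which vanish on `B`. The fibres of `Θ : M → K` are
contained in cosets of the fixed points of `g`, so `|M| ≤ |M^g| |K|`, and `|M^g| ^ 2 ≤ |M|` gives
`|M| ≤ |K| ^ 2`. Extension `f ↦ F f` and `(f, κ) ↦ F f + κ` give `|Der B| |K| ≤ |Der A|` (injective: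
restrict to `B`). So `|Der B| ^ 2 |M| ≤ |Der A| ^ 2 ≤ |M| ^ r`; `r = 0` is impossible as `|M| ≥ 2` and
`|Der B| ≥ 1`; divide by `|M|`. -/
def RksStmt : Prop := ∀ (A : Type u) [Group A] (B : Subgroup A) (r : ℕ), Rk A r →
  (∀ (M : Type u) [AddCommGroup M] [DistribMulAction A M] (f : B → M),
    IsDerOn B f → ∃ δ : A → M, IsDer δ ∧ ∀ b : B, δ b = f b) →
  (∃ g : A, g ≠ 1 ∧ ∀ (M : Type u) [AddCommGroup M] [DistribMulAction A M],
    ∃ Θ : M → (A → M), (∀ m, IsDer (Θ m) ∧ ∀ b ∈ B, Θ m b = 0) ∧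
      ∀ m m' : M, Θ m = Θ m' → g • (m - m') = m - m') →
  ∃ r' : ℕ, r = r' + 1 ∧ Rk B r'

/-- **INR.** The induction, on `r`. (May assume `DraStmt`, `DrxStmt`, `RksStmt`, `TofStmt`,
`FacStmt`.)

Proof. As IND. `W` is infinite (`p` is nonprincipal), so `A` is infinite (finitely many orbits). If no
cut distinguishes two elements, `Z = univ`. Otherwise let `k` be the minimum of the sizes; DRA, DRX,
RKS: `Rk BB (r - 1)`; TOF. -/
def InrStmt : Prop := ∀ (r : ℕ) (A W : Type u) [Group A] [MulAction A W] (G G₀ : SimpleGraph W)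
  (w : W) (p : Ultrafilter W), (∀ (a : A) (n : ℕ), 0 < n → a ^ n = 1 → a = 1) → Rk A r →
  Stg A G G₀ w p → Con A G p

/-- **APR.** The theorem. (May assume `RkbStmt`, `InrStmt`, `KndStmt`.)

Proof. As APP; `A` is finitely generated, as it has finite index in a finitely generated group. -/
def AprStmt : Prop := ∀ (Γ : Type u) [Group Γ], Group.FG Γ →
  (∃ A : Subgroup Γ, A.FiniteIndex ∧ (∀ a ∈ A, ∀ n : ℕ, 0 < n → a ^ n = 1 → a = 1) ∧
    ∀ a : A, a ≠ 1 → ∃ N : Subgroup A, N.Normal ∧ N.FiniteIndex ∧ a ∉ N) → ∀ S : Set Γ,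
  Subgroup.closure S = ⊤ → (∀ s ∈ S, s⁻¹ ∈ S) → (1 : Γ) ∉ S → S.Infinite →
  ∃ φ : ℕ → Set Γ,
    (∀ i, ((SimpleGraph.fromRel fun a b : Γ => a⁻¹ * b ∈ S).induce (φ i)).Connected) ∧
    (∀ i j, i ≠ j → Disjoint (φ i) (φ j)) ∧
    ∀ i j, i ≠ j → ∃ a ∈ φ i, ∃ b ∈ φ j,
      (SimpleGraph.fromRel fun a b : Γ => a⁻¹ * b ∈ S).Adj a b

/-- **RFF.** Free groups are residually finite.

Proof. `mhall` / helper12's `hall` with `B = ⊥`, then the normal core. -/
def RffStmt : Prop := ∀ (A : Type u) [Group A] [IsFreeGroup A] (a : A), a ≠ 1 →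
  ∃ N : Subgroup A, N.Normal ∧ N.FiniteIndex ∧ a ∉ N

end Pool.Agent.Helper67.RF
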