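import Pool.Agent.Helper67.VF.Hall

/-!
# If every derivation of a proper subgroup of a free group of rank `m` into a finite module extends to
the whole group, then the subgroup has rank less than `m`
-/

set_option autoImplicit false

universe u

namespace Pool.Agent.Helper67.VF

theorem closure_range {ι H : Type*} [Group H] (b : FreeGroupBasis ι H) :
    Subgroup.closure (Set.range b) = ⊤ := by
  have h1 : Set.range b = b.repr.symm.toMonoidHom '' Set.range FreeGroup.of := by
    rw [← Set.range_comp]
    rfl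
  rw [h1, ← MonoidHom.map_closure, FreeGroup.closure_range_of]
  exact Subgroup.map_top_of_surjective _ b.repr.symm.surjective

section der
variable {H : Type*} [Group H] {M : Type*} [AddCommGroup M] [DistribMulAction H M]

theorem der_one {f : H → M} (hf : ∀ x y, f (x * y) = f x + x • f y) : f 1 = 0 := by
  have := hf 1 1
  rw [mul_one, one_smul] at this
  exact left_eq_add.1 this

theorem der_ext {ι : Type*} (b : FreeGroupBasis ι H) {f g : H → M}
    (hf : ∀ x y, f (x * y) = f x + x • f y) (hg : ∀ x y, g (x * y) = g x + x • g y)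
    (h : ∀ i, f (b i) = g (b i)) : f = g := by
  have h1 : ∀ x ∈ Subgroup.closure (Set.range b), f x = g x := by
    intro x hx
    induction hx using Subgroup.closure_induction with
    | mem x hx =>
      obtain ⟨i, rfl⟩ := hx
      exact h i
    | one => rw [der_one hf, der_one hg]
    | mul x y _ _ hx hy => rw [hf, hg, hx, hy]
    | inv x _ hx =>
      have e1 := hf x x⁻¹
      have e2 := hg x x⁻¹
      rw [mul_inv_cancel, der_one hf, hx] at e1
      rw [mul_inv_cancel, der_one hg] at e2
      have e3 : x • f x⁻¹ = x • g x⁻¹ := by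
        rw [eq_neg_of_add_eq_zero_right e1.symm, eq_neg_of_add_eq_zero_right e2.symm]
      exact smul_left_cancel x e3
  funext x
  exact h1 x (by rw [closure_range b]; exact Subgroup.mem_top x)

/-- an affine map of `M` -/
def aff (h : H) (v : M) : Equiv.Perm M where
  toFun n := v + h • n
  invFun n := h⁻¹ • (n - v)
  left_inv n := by
    show h⁻¹ • (v + h • n - v) = n
    rw [add_sub_cancel_left, inv_smul_smul]
  right_inv n := by
    show v + h • (h⁻¹ • (n - v)) = n
    rw [smul_inv_smul, add_sub_cancel]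

theorem exists_der {ι : Type*} (b : FreeGroupBasis ι H) (v : ι → M) :
    ∃ f : H → M, (∀ x y, f (x * y) = f x + x • f y) ∧ ∀ i, f (b i) = v i := by
  let Ψ : H →* Equiv.Perm M := b.lift (fun i => aff (b i) (v i))
  have hΨ : ∀ i, Ψ (b i) = aff (b i) (v i) := fun i =>
    congrFun (b.lift.symm_apply_apply (fun i => aff (b i) (v i))) i
  have h1 : ∀ x ∈ Subgroup.closure (Set.range b), ∀ n : M, Ψ x n = Ψ x 0 + x • n := by
    intro x hx
    induction hx using Subgroup.closure_induction with
    | mem x hx =>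
      obtain ⟨i, rfl⟩ := hx
      intro n
      rw [hΨ]
      show v i + b i • n = v i + b i • (0 : M) + b i • n
      rw [smul_zero, add_zero]
    | one =>
      intro n
      rw [map_one, one_smul]
      show n = 0 + n
      rw [zero_add]
    | mul x y _ _ hx hy =>
      intro n
      rw [map_mul, Equiv.Perm.mul_apply, Equiv.Perm.mul_apply, hy n, hx, hx (Ψ y 0), smul_add,
        mul_smul, add_assoc]
    | inv x _ hx =>
      intro n
      have e1 := hx (Ψ x⁻¹ n)
      have e2 := hx (Ψ x⁻¹ 0)
      rw [← Equiv.Perm.mul_apply, ← map_mul, mul_inv_cancel, map_one] at e1 e2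
      have e3 : n = Ψ x 0 + x • Ψ x⁻¹ n := e1
      have e4 : (0 : M) = Ψ x 0 + x • Ψ x⁻¹ 0 := e2
      have e5 : x • Ψ x⁻¹ n = n + x • Ψ x⁻¹ 0 := by
        have : x • Ψ x⁻¹ n = n - Ψ x 0 := by
          nth_rewrite 2 [e3]; abel
        have h6 : Ψ x 0 = - (x • Ψ x⁻¹ 0) := eq_neg_of_add_eq_zero_left e4.symm
        rw [this, h6, sub_neg_eq_add]
      have e7 := congrArg (fun t => x⁻¹ • t) e5
      simp only [inv_smul_smul, smul_add] at e7
      rw [e7, add_comm]
  refine ⟨fun x => Ψ x 0, fun x y => ?_, fun i => ?_⟩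
  · show Ψ (x * y) 0 = Ψ x 0 + x • Ψ y 0
    rw [map_mul, Equiv.Perm.mul_apply]
    exact h1 x (by rw [closure_range b]; exact Subgroup.mem_top x) _
  · show Ψ (b i) 0 = v i
    rw [hΨ]
    show v i + b i • (0 : M) = v i
    rw [smul_zero, add_zero]

end der

/-- the module of the functions on the cosets of `L` modulo 2 -/
def CM {A : Type u} [Group A] (L : Subgroup A) : Type u := (A ⧸ L) → ZMod 2

instance {A : Type u} [Group A] (L : Subgroup A) : AddCommGroup (CM L) :=
  inferInstanceAs (AddCommGroup ((A ⧸ L) → ZMod 2))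

instance {A : Type u} [Group A] (L : Subgroup A) [L.FiniteIndex] : Finite (CM L) :=
  inferInstanceAs (Finite ((A ⧸ L) → ZMod 2))

instance {A : Type u} [Group A] (L : Subgroup A) : Nontrivial (CM L) :=
  inferInstanceAs (Nontrivial ((A ⧸ L) → ZMod 2))

instance {A : Type u} [Group A] (L : Subgroup A) : DistribMulAction A (CM L) where
  smul a φ := fun c => φ (a⁻¹ • c)
  one_smul φ := by
    funext c
    show φ ((1 : A)⁻¹ • c) = φ c
    rw [inv_one, one_smul]
  mul_smul a b φ := by
    funext c
    show φ ((a * b)⁻¹ • c) = φ (b⁻¹ • a⁻¹ • c)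
    rw [mul_inv_rev, mul_smul]
  smul_zero a := rfl
  smul_add a φ ψ := rfl

theorem CM_smul {A : Type u} [Group A] (L : Subgroup A) (a : A) (φ : CM L) (c : A ⧸ L) :
    (a • φ) c = φ (a⁻¹ • c) := rfl

/-- **L10.** -/
theorem rank_lt {A : Type u} [Group A] (m : ℕ) (bA : FreeGroupBasis (Fin m) A) (B : Subgroup A)
    (hne : B ≠ ⊤)
    (hext : ∀ (M : Type u) [AddCommGroup M] [DistribMulAction A M] [Finite M] (f : B → M),
      (∀ b b' : B, f (b * b') = f b + (b : A) • f b') →
      ∃ F : A → M, (∀ x y, F (x * y) = F x + x • F y) ∧ ∀ b : B, F b = f b) :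
    ∃ m' < m, Nonempty (FreeGroupBasis (Fin m') B) := by
  classical
  have : IsFreeGroup A := bA.isFreeGroup
  have : IsFreeGroup B := subgroupIsFreeOfIsFree B
  let ι := IsFreeGroup.Generators B
  let bB : FreeGroupBasis ι B := IsFreeGroup.basis B
  -- the extension map on the values of the basis
  have key : ∀ (M : Type u) [AddCommGroup M] [DistribMulAction A M] [Finite M],
      ∃ E : (ι → M) → (A → M), ∀ v, (∀ x y, E v (x * y) = E v x + x • E v y) ∧
        ∀ i, E v (bB i : A) = v i := by
    intro M _ _ _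
    have h1 : ∀ v : ι → M, ∃ F : A → M, (∀ x y, F (x * y) = F x + x • F y) ∧
        ∀ i, F (bB i : A) = v i := by
      intro v
      obtain ⟨f, hf1, hf2⟩ := exists_der bB v
      obtain ⟨F, hF1, hF2⟩ := hext M f (fun b b' => hf1 b b')
      exact ⟨F, hF1, fun i => by rw [hF2, hf2]⟩
    choose E hE using h1
    exact ⟨E, hE⟩
  have inj : ∀ (M : Type u) [AddCommGroup M] [DistribMulAction A M] [Finite M]
      (E : (ι → M) → (A → M)), (∀ v, (∀ x y, E v (x * y) = E v x + x • E v y) ∧
        ∀ i, E v (bB i : A) = v i) →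
      Function.Injective (fun (v : ι → M) (i : Fin m) => E v (bA i)) := by
    intro M _ _ _ E hE v v' hv
    have h1 : E v = E v' := der_ext bA (hE v).1 (hE v').1 (fun i => congrFun hv i)
    funext i
    rw [← (hE v).2 i, ← (hE v').2 i, h1]
  -- `ι` is finite with at most `m` elements
  obtain ⟨E₀, hE₀⟩ := key (CM (⊤ : Subgroup A))
  have hinj₀ := inj _ E₀ hE₀
  have hfin₀ : Finite (ι → CM (⊤ : Subgroup A)) := Finite.of_injective _ hinj₀
  have hfinι : Finite ι := by
    obtain ⟨z0, z1, hz⟩ := exists_pair_ne (CM (⊤ : Subgroup A))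
    refine Finite.of_injective (fun i : ι => (fun j : ι => if j = i then z1 else z0)) ?_
    intro i j hij
    by_contra hne'
    have := congrFun hij i
    simp only [if_true, if_neg hne'] at this
    exact hz this.symm
  have hfι : Fintype ι := Fintype.ofFinite ι
  have hcard : Fintype.card ι ≤ m := by
    have h1 := Nat.card_le_card_of_injective _ hinj₀
    have h2 : Nat.card (ι → CM (⊤ : Subgroup A)) = Nat.card (CM (⊤ : Subgroup A)) ^ Fintype.card ι := by
      rw [Nat.card_fun, Nat.card_eq_fintype_card (α := ι)]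
    have h3 : Nat.card (Fin m → CM (⊤ : Subgroup A)) = Nat.card (CM (⊤ : Subgroup A)) ^ m := by
      rw [Nat.card_fun, Nat.card_eq_fintype_card (α := Fin m), Fintype.card_fin]
    rw [h2, h3] at h1
    exact (Nat.pow_le_pow_iff_right Finite.one_lt_card).1 h1
  rcases lt_or_eq_of_le hcard with hlt | heq
  · exact ⟨Fintype.card ι, hlt, ⟨bB.reindex (Fintype.equivFin ι)⟩⟩
  -- the case of equality
  exfalso
  have hBfg : B.FG := by
    have h1 : (⊤ : Subgroup B).FG := by
      refine ⟨Finset.univ.image bB, ?_⟩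
      rw [Finset.coe_image, Finset.coe_univ, Set.image_univ, closure_range bB]
    have h2 := fg_map B.subtype ⊤ h1
    rwa [← MonoidHom.range_eq_map, Subgroup.range_subtype] at h2
  obtain ⟨L, hL1, hL2, hL3⟩ := mhall B hBfg hne
  obtain ⟨E, hE⟩ := key (CM L)
  have hinj := inj _ E hE
  have hbij : Function.Surjective (fun (v : ι → CM L) (i : Fin m) => E v (bA i)) := by
    have e : ι ≃ Fin m := Fintype.equivOfCardEq (by rw [heq, Fintype.card_fin])
    have h1 := Finite.injective_iff_surjective_of_equiv (Equiv.arrowCongr e (Equiv.refl (CM L)))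
      (f := (fun (v : ι → CM L) (i : Fin m) => E v (bA i)))
    exact h1.1 hinj
  -- a derivation which vanishes on `B` is `0`
  have hval : ∀ F : A → CM L, (∀ x y, F (x * y) = F x + x • F y) → (∀ b : B, F b = 0) →
      F = E 0 := by
    intro F hF hFB
    obtain ⟨v, hv⟩ := hbij (fun i => F (bA i))
    have h1 : E v = F := der_ext bA (hE v).1 hF (fun i => congrFun hv i)
    have h2 : v = 0 := by
      funext i
      rw [← (hE v).2 i, h1]
      exact hFB _
    rw [← h1, h2]
  have hzero : (0 : A → CM L) = E 0 := hval 0 (fun x y => by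
    show (0 : CM L) = 0 + x • (0 : CM L)
    rw [smul_zero, add_zero]) (fun b => rfl)
  let φ0 : CM L := fun c => if c = ((1 : A) : A ⧸ L) then 1 else 0
  have hstab : ∀ x : A, x • φ0 = φ0 → x ∈ L := by
    intro x hx
    have h1 := congrFun hx ((x : A) : A ⧸ L)
    rw [CM_smul] at h1
    have h2 : x⁻¹ • ((x : A) : A ⧸ L) = ((1 : A) : A ⧸ L) := by
      show ((x⁻¹ * x : A) : A ⧸ L) = _
      rw [inv_mul_cancel]
    rw [h2] at h1
    by_contra hxL
    have h3 : ((x : A) : A ⧸ L) ≠ ((1 : A) : A ⧸ L) := by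
      intro h4
      rw [QuotientGroup.eq, mul_one, inv_mem_iff] at h4
      exact hxL h4
    simp only [φ0, if_true, if_neg h3] at h1
    exact one_ne_zero h1
  have hfix : ∀ x ∈ L, x • φ0 = φ0 := by
    intro x hx
    funext c
    rw [CM_smul]
    have h1 : x⁻¹ • c = ((1 : A) : A ⧸ L) ↔ c = ((1 : A) : A ⧸ L) := by
      rw [inv_smul_eq_iff]
      have : x • ((1 : A) : A ⧸ L) = ((1 : A) : A ⧸ L) := by
        show ((x * 1 : A) : A ⧸ L) = _
        rw [mul_one, QuotientGroup.eq, mul_one, inv_mem_iff]
        exact hx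
      rw [this]
    by_cases hc : c = ((1 : A) : A ⧸ L)
    · simp only [φ0, if_pos (h1.2 hc), if_pos hc]
    · simp only [φ0, if_neg (fun h => hc (h1.1 h)), if_neg hc]
  have hF := hval (fun x => x • φ0 - φ0) (fun x y => by
    show (x * y) • φ0 - φ0 = (x • φ0 - φ0) + x • (y • φ0 - φ0)
    rw [smul_sub, mul_smul]
    abel) (fun b => by
      show (b : A) • φ0 - φ0 = 0
      rw [hfix _ (hL1 b.2), sub_self])
  rw [← hzero] at hF
  apply hL2
  rw [eq_top_iff]
  intro x _
  apply hstab
  have := congrFun hF x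
  exact sub_eq_zero.1 this

end Pool.Agent.Helper67.VF
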