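import Pool.Agent.Helper27.VF.Goals
import Pool.Agent.Helper67.VF.Rank

/-!
# Packet VF-RNK: the rank drops
-/

set_option autoImplicit false

universe u

namespace Pool.Agent.Helper67.VF

open Pool.Agent.Helper27.VF

theorem rnk : RnkStmt.{u} := by
  intro m A _ hA B hne hext
  obtain ⟨e⟩ := hA
  obtain ⟨n, hn, ⟨b⟩⟩ := rank_lt m (FreeGroupBasis.ofRepr e.symm) B hne (by
    intro M _ _ _ f hf
    obtain ⟨δ, h1, h2⟩ := hext M f hf
    exact ⟨δ, h1, h2⟩)
  exact ⟨n, hn, ⟨b.repr.symm⟩⟩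

theorem hal : HalStmt := fun _ B hB hne => mhall B hB hne

end Pool.Agent.Helper67.VF
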