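import Pool.Agent.Helper28.VF.Defs

set_option autoImplicit false
set_option linter.unusedSectionVars false
set_option linter.unusedDecidableInType false
set_option linter.unusedFintypeInType false

namespace Helper67.VF

open Finset Equiv Helper28.VF

/-- integer indicator -/
def ib (p : Prop) [Decidable p] : ℤ := if p then 1 else 0

theorem ib_nonneg (p : Prop) [Decidable p] : 0 ≤ ib p := by unfold ib; split_ifs <;> omega
theorem ib_le_one (p : Prop) [Decidable p] : ib p ≤ 1 := by unfold ib; split_ifs <;> omega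
theorem ib_le {p q : Prop} [Decidable p] [Decidable q] (h : p → q) : ib p ≤ ib q := by
  unfold ib; split_ifs with h1 h2 <;> first | omega | exact absurd (h h1) h2
theorem ib_true {p : Prop} [Decidable p] (h : p) : ib p = 1 := by simp [ib, h]
theorem ib_false {p : Prop} [Decidable p] (h : ¬ p) : ib p = 0 := by simp [ib, h]

section
variable {D V E F : Type} [Fintype D] [Fintype V] [Fintype E] [Fintype F]
  [DecidableEq D] [DecidableEq V] [DecidableEq E] [DecidableEq F]
  (M : PM D V E F) (YV : Finset V) (YF : Finset F)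

theorem sum_ib (p : D → Prop) [DecidablePred p] :
    ∑ d, ib (p d) = ((univ.filter p).card : ℤ) := by
  unfold ib
  rw [Finset.sum_boole]

theorem vt_sig (d : D) : M.vt (M.σ d) = M.vt d := by
  rw [M.vt_iff]; exact ⟨-1, by simp⟩

theorem fc_sig (d : D) : M.fc (M.σ d) = M.fc (M.α d) := by
  rw [eq_comm, M.fc_iff]
  exact ⟨1, by simp [Perm.mul_apply, M.α_inv]⟩

theorem full_al (d : D) : M.Full YV YF (M.α d) ↔ M.Full YV YF d := by
  unfold PM.Full; rw [M.α_inv]; tauto

theorem mem_SE (d : D) : M.ed d ∈ M.SE YV YF ↔ M.Full YV YF d := by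
  unfold PM.SE
  simp only [mem_image, mem_filter, mem_univ, true_and]
  constructor
  · rintro ⟨d', hd', he⟩
    rcases (M.ed_iff d' d).1 he with rfl | rfl
    · exact hd'
    · exact (full_al M YV YF d').2 hd'
  · intro h; exact ⟨d, h, rfl⟩

theorem two_SE : (univ.filter (fun d => M.Full YV YF d)).card = 2 * (M.SE YV YF).card := by
  rw [Finset.card_eq_sum_card_fiberwise (f := M.ed) (t := M.SE YV YF)]
  · rw [Finset.sum_const_nat (m := 2)]
    · ring
    · intro e he
      obtain ⟨d, rfl⟩ := M.ed_surj e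
      have hd := (mem_SE M YV YF d).1 he
      have : (univ.filter (fun d => M.Full YV YF d)).filter (fun x => M.ed x = M.ed d)
          = {d, M.α d} := by
        ext x
        simp only [mem_filter, mem_univ, true_and, mem_insert, mem_singleton]
        constructor
        · rintro ⟨_, h⟩
          exact (M.ed_iff d x).1 h.symm
        · rintro (rfl | rfl)
          · exact ⟨hd, rfl⟩
          · exact ⟨(full_al M YV YF d).2 hd, ((M.ed_iff d _).2 (Or.inr rfl)).symm⟩
      rw [this, card_pair (M.α_ne d).symm]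
  · intro d hd
    have hd' : M.Full YV YF d := by simpa using hd
    exact (mem_SE M YV YF d).2 hd'

include M in
theorem card_D : Fintype.card D = 2 * Fintype.card E := by
  have h : (univ : Finset D).card = ∑ e ∈ (univ : Finset E),
      ((univ : Finset D).filter (fun x => M.ed x = e)).card :=
    Finset.card_eq_sum_card_fiberwise (fun d _ => mem_coe.2 (mem_univ _))
  rw [← card_univ, h, Finset.sum_const_nat (m := 2)]
  · rw [card_univ]; ring
  · intro e _
    obtain ⟨d, rfl⟩ := M.ed_surj e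
    have : (univ : Finset D).filter (fun x => M.ed x = M.ed d) = {d, M.α d} := by
      ext x
      simp only [mem_filter, mem_univ, true_and, mem_insert, mem_singleton]
      constructor
      · intro h
        exact (M.ed_iff d x).1 h.symm
      · rintro (rfl | rfl)
        · rfl
        · exact ((M.ed_iff d _).2 (Or.inr rfl)).symm
    rw [this, card_pair (M.α_ne d).symm]

theorem mem_DS (c : D) : c ∈ M.DS YV YF ↔ (M.Full YV YF c ∨ M.Full YV YF (M.σ.symm c)) := by
  unfold PM.DS; simp

theorem DS_el {c : D} (h : c ∈ M.DS YV YF) : M.vt c ∈ YV ∧ M.fc c ∈ YF := by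
  rcases (mem_DS M YV YF c).1 h with h | h
  · exact ⟨h.1, h.2.2.1⟩
  · have h1 := h.1
    have h2 := h.2.2.2
    rw [← fc_sig, M.σ.apply_symm_apply] at h2
    have h3 := vt_sig M (M.σ.symm c)
    rw [M.σ.apply_symm_apply] at h3
    exact ⟨by rw [h3]; exact h1, h2⟩

/-- the weight -/
def W2 (d : D) : ℤ :=
  2 * ib (M.vt d ∈ YV) + 2 * ib (M.fc d ∈ YF) + 2 * ib (M.Full YV YF d)
    - 3 * ib (d ∈ M.DS YV YF) - 3 * ib (M.σ d ∈ M.DS YV YF)

def cl (d : D) : ℤ :=
  if M.vt d ∈ YV then 0 else
    if M.fc d ∈ YF then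
      (if M.fc (M.α d) ∈ YF then (if M.vt (M.α d) ∈ YV then 0 else 2) else 1)
    else
      (if M.fc (M.α d) ∈ YF then 1 else (if M.vt (M.α d) ∈ YV then 2 else 0))

theorem sum_W2 : ∑ d, W2 M YV YF d =
    2 * ((univ.filter (fun d => M.vt d ∈ YV)).card : ℤ)
    + 2 * ((univ.filter (fun d => M.fc d ∈ YF)).card : ℤ)
    + 4 * ((M.SE YV YF).card : ℤ) - 6 * ((M.DS YV YF).card : ℤ) := by
  unfold W2
  have h1 : ∑ d, ib (M.σ d ∈ M.DS YV YF) = ∑ d, ib (d ∈ M.DS YV YF) :=
    Equiv.sum_comp M.σ (fun d => ib (d ∈ M.DS YV YF))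
  have h2 : ∑ d, ib (d ∈ M.DS YV YF) = ((M.DS YV YF).card : ℤ) := by
    rw [sum_ib]; congr 2; ext; simp
  have h3 : ∑ d, ib (M.Full YV YF d) = 2 * ((M.SE YV YF).card : ℤ) := by
    rw [sum_ib, two_SE]; push_cast; ring
  simp only [sum_sub_distrib, sum_add_distrib, ← mul_sum]
  rw [h1, h2, h3, sum_ib, sum_ib]
  ring

theorem pair_facts (d : D) :
    W2 M YV YF d + W2 M YV YF (M.α d) =
      2 * (ib (M.vt d ∈ YV) + ib (M.vt (M.α d) ∈ YV) + ib (M.fc d ∈ YF) + ib (M.fc (M.α d) ∈ YF))
      + 4 * ib (M.Full YV YF d)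
      - 3 * (ib (d ∈ M.DS YV YF) + ib (M.σ d ∈ M.DS YV YF) + ib (M.α d ∈ M.DS YV YF)
        + ib (M.σ (M.α d) ∈ M.DS YV YF)) := by
  unfold W2
  have : ib (M.Full YV YF (M.α d)) = ib (M.Full YV YF d) :=
    le_antisymm (ib_le (full_al M YV YF d).1) (ib_le (full_al M YV YF d).2)
  rw [this]
  ring

theorem x_bounds (d : D) :
    ib (d ∈ M.DS YV YF) ≤ ib (M.vt d ∈ YV) ∧ ib (d ∈ M.DS YV YF) ≤ ib (M.fc d ∈ YF) ∧
    ib (M.σ d ∈ M.DS YV YF) ≤ ib (M.vt d ∈ YV) ∧
    ib (M.σ d ∈ M.DS YV YF) ≤ ib (M.fc (M.α d) ∈ YF) := by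
  refine ⟨ib_le fun h => (DS_el M YV YF h).1, ib_le fun h => (DS_el M YV YF h).2,
    ib_le fun h => ?_, ib_le fun h => ?_⟩
  · have := (DS_el M YV YF h).1
    rwa [vt_sig] at this
  · have := (DS_el M YV YF h).2
    rwa [fc_sig] at this

theorem pair_ineq (d : D) :
    cl M YV YF d + cl M YV YF (M.α d) ≤ W2 M YV YF d + W2 M YV YF (M.α d) := by
  rw [pair_facts]
  obtain ⟨b1, b2, b3, b4⟩ := x_bounds M YV YF d
  obtain ⟨c1, c2, c3, c4⟩ := x_bounds M YV YF (M.α d)
  rw [M.α_inv] at c4
  have n1 := ib_nonneg (d ∈ M.DS YV YF)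
  have n2 := ib_nonneg (M.σ d ∈ M.DS YV YF)
  have n3 := ib_nonneg (M.α d ∈ M.DS YV YF)
  have n4 := ib_nonneg (M.σ (M.α d) ∈ M.DS YV YF)
  have hF : ib (M.vt d ∈ YV) + ib (M.vt (M.α d) ∈ YV) + ib (M.fc d ∈ YF)
      + ib (M.fc (M.α d) ∈ YF) - 3 ≤ ib (M.Full YV YF d) := by
    by_cases p1 : M.vt d ∈ YV <;> by_cases p2 : M.vt (M.α d) ∈ YV <;>
      by_cases p3 : M.fc d ∈ YF <;> by_cases p4 : M.fc (M.α d) ∈ YF <;>
      simp [ib, PM.Full, p1, p2, p3, p4]
  have hF0 := ib_nonneg (M.Full YV YF d)
  generalize ib (d ∈ M.DS YV YF) = x1 at *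
  generalize ib (M.σ d ∈ M.DS YV YF) = x2 at *
  generalize ib (M.α d ∈ M.DS YV YF) = x3 at *
  generalize ib (M.σ (M.α d) ∈ M.DS YV YF) = x4 at *
  generalize ib (M.Full YV YF d) = x5 at *
  unfold cl
  rw [M.α_inv]
  by_cases p1 : M.vt d ∈ YV <;> by_cases p2 : M.vt (M.α d) ∈ YV <;>
    by_cases p3 : M.fc d ∈ YF <;> by_cases p4 : M.fc (M.α d) ∈ YF <;>
    simp only [ib, p1, p2, p3, p4, if_true, if_false] at * <;> omega

theorem cl_nonneg (d : D) : 0 ≤ cl M YV YF d := by
  unfold cl
  split_ifs <;> omega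

theorem sum_cl_le : ∑ d, cl M YV YF d ≤ ∑ d, W2 M YV YF d := by
  have h : ∑ d, (cl M YV YF d + cl M YV YF (M.α d)) ≤
      ∑ d, (W2 M YV YF d + W2 M YV YF (M.α d)) :=
    sum_le_sum fun d _ => pair_ineq M YV YF d
  rw [sum_add_distrib, sum_add_distrib] at h
  have h1 : ∑ d, cl M YV YF (M.α d) = ∑ d, cl M YV YF d :=
    Equiv.sum_comp M.α (fun d => cl M YV YF d)
  have h2 : ∑ d, W2 M YV YF (M.α d) = ∑ d, W2 M YV YF d :=
    Equiv.sum_comp M.α (fun d => W2 M YV YF d)
  rw [h1, h2] at h
  linarith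

theorem sum_cl_nonneg : 0 ≤ ∑ d, cl M YV YF d :=
  sum_nonneg fun d _ => cl_nonneg M YV YF d

/-- a full dart: all four corners are in `DS` -/
theorem sig_ne (hdeg : ∀ v, 3 ≤ (univ.filter (fun d => M.vt d = v)).card) (x : D) : M.σ x ≠ x := by
  intro hx
  have h3 := hdeg (M.vt x)
  have : (univ.filter (fun d => M.vt d = M.vt x)) ⊆ {x} := by
    intro d hd
    simp only [mem_filter, mem_univ, true_and] at hd
    obtain ⟨k, hk⟩ := (M.vt_iff x d).1 hd.symm
    rw [Equiv.Perm.zpow_apply_eq_self_of_apply_eq_self hx] at hk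
    simp [hk]
  have := card_le_card this
  simp at this
  omega

theorem six_le (hdeg : ∀ v, 3 ≤ (univ.filter (fun d => M.vt d = v)).card)
    (u : V) (hu : u ∉ YV) (hall : ∀ d, M.vt d = u → M.fc d ∈ YF ∧ M.vt (M.α d) ∈ YV)
    (d : D) (hd : M.vt d = u)
    (hr : M.α d ∉ M.DS YV YF ∨ M.σ (M.α d) ∉ M.DS YV YF) : 6 ≤ ∑ d, W2 M YV YF d := by
  set P : D → ℤ := fun x => W2 M YV YF x + W2 M YV YF (M.α x) with hP
  have hP0 : ∀ x, 0 ≤ P x := fun x =>
    le_trans (add_nonneg (cl_nonneg M YV YF x) (cl_nonneg M YV YF (M.α x))) (pair_ineq M YV YF x)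
  have hPa : ∀ x, P (M.α x) = P x := fun x => by simp only [hP, M.α_inv]; ring
  have hsum : ∑ x, P x = 2 * ∑ d, W2 M YV YF d := by
    simp only [hP, sum_add_distrib]
    have h2 : ∑ d, W2 M YV YF (M.α d) = ∑ d, W2 M YV YF d :=
      Equiv.sum_comp M.α (fun d => W2 M YV YF d)
    rw [h2]; ring
  have hgd : M.fc d ∈ YF := (hall d hd).1
  have had : M.vt (M.α d) ∈ YV := (hall d hd).2
  have hgd' : M.fc (M.α d) ∈ YF := by
    have := (hall (M.σ d) (by rw [vt_sig, hd])).1
    rwa [fc_sig] at this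
  have hvd : M.vt d ∉ YV := by rw [hd]; exact hu
  have hnf : ¬ M.Full YV YF d := fun h => hvd h.1
  have hPd : 3 ≤ P d := by
    simp only [hP]
    rw [pair_facts]
    obtain ⟨b1, b2, b3, b4⟩ := x_bounds M YV YF d
    rw [ib_false hvd] at b1 b3 ⊢
    rw [ib_true hgd, ib_true hgd', ib_true had, ib_false hnf]
    have m3 := ib_le_one (M.α d ∈ M.DS YV YF)
    have m4 := ib_le_one (M.σ (M.α d) ∈ M.DS YV YF)
    rcases hr with hr | hr
    · rw [ib_false hr]; omega
    · rw [ib_false hr]; omega
  obtain ⟨e, hev, hee, heP⟩ : ∃ e, M.vt e = M.vt (M.α d) ∧ e ≠ M.α d ∧ 3 ≤ P e := by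
    rcases hr with hr | hr
    · refine ⟨M.σ.symm (M.α d), ?_, ?_, ?_⟩
      · have := vt_sig M (M.σ.symm (M.α d))
        rw [M.σ.apply_symm_apply] at this
        exact this.symm
      · intro h
        have := congrArg M.σ h
        rw [M.σ.apply_symm_apply] at this
        exact sig_ne M hdeg _ this.symm
      · set e := M.σ.symm (M.α d) with he
        have hse : M.σ e = M.α d := by rw [he, M.σ.apply_symm_apply]
        have hve : M.vt e ∈ YV := by
          have := vt_sig M e
          rw [hse] at this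
          rw [← this]; exact had
        have hfe : M.fc (M.α e) ∈ YF := by
          rw [← fc_sig, hse]; exact hgd'
        have hne : ¬ M.Full YV YF e := by
          intro h
          exact hr ((mem_DS M YV YF _).2 (Or.inr h))
        simp only [hP]
        rw [pair_facts]
        obtain ⟨b1, b2, b3, b4⟩ := x_bounds M YV YF e
        obtain ⟨c1, c2, c3, c4⟩ := x_bounds M YV YF (M.α e)
        rw [M.α_inv] at c4
        rw [hse, ib_false hr]
        rw [ib_true hve, ib_true hfe, ib_false hne]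
        have l1 := ib_le_one (M.fc e ∈ YF)
        have l2 := ib_le_one (M.vt (M.α e) ∈ YV)
        have l3 := ib_nonneg (M.fc e ∈ YF)
        have l4 := ib_nonneg (M.vt (M.α e) ∈ YV)
        have l5 : ib (M.fc e ∈ YF) + ib (M.vt (M.α e) ∈ YV) ≤ 1 := by
          by_cases q1 : M.fc e ∈ YF
          · by_cases q2 : M.vt (M.α e) ∈ YV
            · exact absurd ⟨hve, q2, q1, hfe⟩ hne
            · rw [ib_false q2]; omega
          · rw [ib_false q1]; omega
        omega
    · refine ⟨M.σ (M.α d), vt_sig M _, sig_ne M hdeg _, ?_⟩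
      set e := M.σ (M.α d) with he
      have hve : M.vt e ∈ YV := by rw [he, vt_sig]; exact had
      have hfe : M.fc e ∈ YF := by rw [he, fc_sig, M.α_inv]; exact hgd
      have hne : ¬ M.Full YV YF e := by
        intro h
        exact hr ((mem_DS M YV YF _).2 (Or.inl h))
      simp only [hP]
      rw [pair_facts]
      obtain ⟨b1, b2, b3, b4⟩ := x_bounds M YV YF e
      obtain ⟨c1, c2, c3, c4⟩ := x_bounds M YV YF (M.α e)
      rw [M.α_inv] at c4
      rw [ib_false hr]
      rw [ib_true hve, ib_true hfe, ib_false hne]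
      have l1 := ib_le_one (M.fc (M.α e) ∈ YF)
      have l2 := ib_le_one (M.vt (M.α e) ∈ YV)
      have l3 := ib_nonneg (M.fc (M.α e) ∈ YF)
      have l4 := ib_nonneg (M.vt (M.α e) ∈ YV)
      have l5 : ib (M.fc (M.α e) ∈ YF) + ib (M.vt (M.α e) ∈ YV) ≤ 1 := by
        by_cases q1 : M.fc (M.α e) ∈ YF
        · by_cases q2 : M.vt (M.α e) ∈ YV
          · exact absurd ⟨hve, q2, hfe, q1⟩ hne
          · rw [ib_false q2]; omega
        · rw [ib_false q1]; omega
      omega
  have hed : e ≠ d := by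
    rintro rfl
    rw [hev] at hvd
    exact hvd had
  have hae : M.α e ≠ d := by
    intro h
    apply hee
    rw [← h, M.α_inv]
  have haa : M.α e ≠ M.α d := fun h => hed (M.α.injective h)
  have hsub : ∑ x ∈ ({d, M.α d, e, M.α e} : Finset D), P x ≤ ∑ x, P x :=
    sum_le_sum_of_subset_of_nonneg (subset_univ _) fun x _ _ => hP0 x
  rw [sum_insert, sum_insert, sum_insert, sum_singleton, hPa, hPa, hsum] at hsub
  · linarith
  · simp only [mem_singleton]; exact (M.α_ne e).symm
  · simp only [mem_insert, mem_singleton, not_or]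
    exact ⟨hee.symm, haa.symm⟩
  · simp only [mem_insert, mem_singleton, not_or]
    exact ⟨(M.α_ne d).symm, hed.symm, hae.symm⟩

/-- crossing darts in a cycle of `σ` -/
theorem cross (u : V) (p : D → Prop) (x y : D) (hx : M.vt x = u) (hy : M.vt y = u)
    (px : p x) (py : ¬ p y) : ∃ d, M.vt d = u ∧ p d ∧ ¬ p (M.σ d) := by
  by_contra hcon
  push Not at hcon
  have hc : M.σ.SameCycle x y := (M.vt_iff x y).1 (hx.trans hy.symm)
  obtain ⟨n, hn⟩ := hc.exists_nat_pow_eq
  have : ∀ k : ℕ, M.vt ((M.σ ^ k) x) = u ∧ p ((M.σ ^ k) x) := by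
    intro k
    induction k with
    | zero => exact ⟨hx, px⟩
    | succ k ih =>
      rw [pow_succ', Perm.mul_apply]
      exact ⟨by rw [vt_sig]; exact ih.1, hcon _ ih.1 ih.2⟩
  exact py (hn ▸ (this n).2)

theorem cl_two (u : V) (hu : u ∉ YV)
    (hbad : ∃ d, M.vt d = u ∧ (M.fc d ∈ YF → M.vt (M.α d) ∉ YV))
    (hnb : ∃ d, M.vt d = u ∧ M.vt (M.α d) ∈ YV) :
    2 ≤ ∑ d ∈ univ.filter (fun d => M.vt d = u), cl M YV YF d := by
  have key1 : ∀ d, M.vt d = u → 2 ≤ cl M YV YF d →
      2 ≤ ∑ d ∈ univ.filter (fun d => M.vt d = u), cl M YV YF d := by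
    intro d hd h2
    refine le_trans h2 ?_
    exact single_le_sum (f := fun d => cl M YV YF d) (fun x _ => cl_nonneg M YV YF x)
      (by simp [hd])
  by_cases hin : ∃ x, M.vt x = u ∧ M.fc x ∈ YF
  · by_cases hout : ∃ y, M.vt y = u ∧ M.fc y ∉ YF
    · obtain ⟨x, hx, px⟩ := hin
      obtain ⟨y, hy, py⟩ := hout
      obtain ⟨d, hd, h1, h2⟩ := cross M u (fun d => M.fc d ∈ YF) x y hx hy px py
      obtain ⟨d', hd', h1', h2'⟩ := cross M u (fun d => M.fc d ∉ YF) y x hy hx py
        (by simpa using px)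
      have hne : d ≠ d' := by rintro rfl; exact h1' h1
      simp only [not_not] at h2'
      have e1 : cl M YV YF d = 1 := by
        unfold cl
        rw [fc_sig] at h2
        rw [if_neg (by rw [hd]; exact hu), if_pos h1, if_neg h2]
      have e2 : cl M YV YF d' = 1 := by
        unfold cl
        rw [fc_sig] at h2'
        rw [if_neg (by rw [hd']; exact hu), if_neg h1', if_pos h2']
      have hsub : ∑ x ∈ ({d, d'} : Finset D), cl M YV YF x ≤
          ∑ d ∈ univ.filter (fun d => M.vt d = u), cl M YV YF d :=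
        sum_le_sum_of_subset_of_nonneg (by
          intro x hx
          simp only [mem_insert, mem_singleton] at hx
          rcases hx with rfl | rfl
          · simp [hd]
          · simp [hd']) fun x _ _ => cl_nonneg M YV YF x
      rw [sum_pair hne, e1, e2] at hsub
      linarith
    · push Not at hout
      obtain ⟨d, hd, hb⟩ := hbad
      apply key1 d hd
      unfold cl
      have h1 : M.fc (M.α d) ∈ YF := by
        rw [← fc_sig]; exact hout _ (by rw [vt_sig, hd])
      rw [if_neg (by rw [hd]; exact hu), if_pos (hout d hd), if_pos h1, if_neg (hb (hout d hd))]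
  · push Not at hin
    obtain ⟨d, hd, hb⟩ := hnb
    apply key1 d hd
    unfold cl
    have h1 : M.fc (M.α d) ∉ YF := by
      rw [← fc_sig]; exact hin _ (by rw [vt_sig, hd])
    rw [if_neg (by rw [hd]; exact hu), if_neg (hin d hd), if_neg h1, if_pos hb]

theorem bound_c (h : StmtHole) (hdeg : ∀ v, 3 ≤ (univ.filter (fun d => M.vt d = v)).card)
    (hC : M.C3) (f₀ : F) (a₁ a₂ a₃ : V) (h12 : a₁ ≠ a₂) (h13 : a₁ ≠ a₃) (h23 : a₂ ≠ a₃)
    (hCn : M.Cn YV YF) (d₁ : D) (hd₁ : M.Full YV YF d₁) (d₂ : D) (hd₂ : ¬ M.Full YV YF d₂) :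
    3 * (YV.card + YF.card) + (M.SE YV YF).card ≤
      (univ.filter (fun d => M.vt d ∈ YV)).card + (univ.filter (fun d => M.fc d ∈ YF)).card +
      (if f₀ ∈ YF then 3 else 0) + (YV ∩ {a₁, a₂, a₃}).card := by
  have hW := sum_W2 M YV YF
  have hcl := sum_cl_le M YV YF
  have hcl0 := sum_cl_nonneg M YV YF
  have hfirst : (M.SE YV YF).card + YV.card + YF.card ≤ (M.DS YV YF).card + 1 := by
    refine (h D V E F M YV YF (univ \ M.SE YV YF) hCn ⟨M.ed d₂, ?_⟩ disjoint_sdiff ?_).1
    · simp only [mem_sdiff, mem_univ, true_and, mem_SE]; exact hd₂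
    · intro c hc
      rw [mem_DS, not_or] at hc
      simp only [mem_sdiff, mem_univ, true_and, mem_SE]
      exact ⟨fun _ => hc.2, fun _ => hc.1⟩
  by_cases hf : f₀ ∈ YF
  · rw [if_pos hf]
    zify at hfirst ⊢
    have : (0 : ℤ) ≤ ((YV ∩ {a₁, a₂, a₃}).card : ℤ) := Int.natCast_nonneg _
    linarith
  rw [if_neg hf]
  by_cases hu : ∃ u, u ∉ YV ∧ ∀ d, M.vt d = u → M.fc d ∈ YF ∧ M.vt (M.α d) ∈ YV
  · obtain ⟨u, huY, hall⟩ := hu
    by_cases hi : ∀ d, M.vt d = u → M.α d ∈ M.DS YV YF ∧ M.σ (M.α d) ∈ M.DS YV YF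
    · have hsec : (M.SE YV YF).card + YV.card + YF.card ≤ (M.DS YV YF).card := by
        refine (h D V E F M YV YF ((univ.filter (fun d => M.vt d = u)).image M.ed) hCn
          ?_ ?_ ?_).2 ?_
        · obtain ⟨d, hd⟩ := M.vt_surj u
          exact ⟨M.ed d, by simp only [mem_image, mem_filter, mem_univ, true_and]; exact ⟨d, hd, rfl⟩⟩
        · rw [disjoint_left]
          intro e he he2
          simp only [mem_image, mem_filter, mem_univ, true_and] at he2
          obtain ⟨d, hd, rfl⟩ := he2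
          exact huY (hd ▸ ((mem_SE M YV YF d).1 he).1)
        · intro c hc
          simp only [mem_image, mem_filter, mem_univ, true_and]
          constructor
          · rintro ⟨d, hd, he⟩
            rcases (M.ed_iff d c).1 he with rfl | rfl
            · refine ⟨M.σ.symm c, ?_, rfl⟩
              rw [← hd, ← vt_sig M (M.σ.symm c), M.σ.apply_symm_apply]
            · exact absurd (hi d hd).1 hc
          · rintro ⟨d, hd, he⟩
            rcases (M.ed_iff d _).1 he with h1 | h1
            · refine ⟨c, ?_, rfl⟩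
              have : c = M.σ d := by rw [← h1, M.σ.apply_symm_apply]
              rw [this, vt_sig, hd]
            · have : c = M.σ (M.α d) := by rw [← h1, M.σ.apply_symm_apply]
              rw [this] at hc
              exact absurd (hi d hd).2 hc
        · obtain ⟨d0, hd0⟩ := M.fc_surj f₀
          refine ⟨M.ed d0, ?_, ?_⟩
          · rw [mem_SE]
            intro hfull
            exact hf (hd0 ▸ hfull.2.2.1)
          · simp only [mem_image, mem_filter, mem_univ, true_and]
            rintro ⟨d, hd, he⟩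
            rcases (M.ed_iff d d0).1 he with rfl | rfl
            · exact hf (hd0 ▸ (hall d0 hd).1)
            · apply hf
              rw [← hd0, ← fc_sig]
              exact (hall _ (by rw [vt_sig, hd])).1
      zify at hsec ⊢
      have : (0 : ℤ) ≤ ((YV ∩ {a₁, a₂, a₃}).card : ℤ) := Int.natCast_nonneg _
      linarith
    · push Not at hi
      obtain ⟨d, hd, hr⟩ := hi
      have h6 := six_le M YV YF hdeg u huY hall d hd (by
        by_cases q : M.α d ∈ M.DS YV YF
        · exact Or.inr (hr q)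
        · exact Or.inl q)
      zify at hfirst ⊢
      have : (0 : ℤ) ≤ ((YV ∩ {a₁, a₂, a₃}).card : ℤ) := Int.natCast_nonneg _
      linarith
  · push Not at hu
    set N : Finset V := univ.filter (fun u => u ∉ YV ∧ ∃ d, M.vt d = u ∧ M.vt (M.α d) ∈ YV) with hN
    have hsum : 2 * (N.card : ℤ) ≤ ∑ d, cl M YV YF d := by
      have e1 : ∑ d, cl M YV YF d =
          ∑ v, ∑ d ∈ univ.filter (fun d => M.vt d = v), cl M YV YF d :=
        (sum_fiberwise _ _ _).symm
      rw [e1]
      have e2 : ∑ v ∈ N, (2 : ℤ) ≤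
          ∑ v ∈ N, ∑ d ∈ univ.filter (fun d => M.vt d = v), cl M YV YF d := by
        refine sum_le_sum fun u hu' => ?_
        simp only [hN, mem_filter, mem_univ, true_and] at hu'
        refine cl_two M YV YF u hu'.1 ?_ hu'.2
        obtain ⟨d, hd, hb⟩ := hu u hu'.1
        exact ⟨d, hd, hb⟩
      have e3 : ∑ v ∈ N, ∑ d ∈ univ.filter (fun d => M.vt d = v), cl M YV YF d ≤
          ∑ v, ∑ d ∈ univ.filter (fun d => M.vt d = v), cl M YV YF d :=
        sum_le_sum_of_subset_of_nonneg (subset_univ _) fun v _ _ =>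
          sum_nonneg fun x _ => cl_nonneg M YV YF x
      rw [sum_const, nsmul_eq_mul] at e2
      linarith
    have hfin : 6 ≤ 2 * (N.card : ℤ) + 2 * ((YV ∩ {a₁, a₂, a₃}).card : ℤ) := by
      set B : Finset V := univ.filter
        (fun u => u ∉ YV ∧ ¬ ∃ d, M.vt d = u ∧ M.vt (M.α d) ∈ YV) with hB
      by_cases hBn : B.Nonempty
      · have hX : YV.Nonempty := ⟨_, hd₁.1⟩
        have h3 := hC.cut3 YV B hX hBn (by
          rw [disjoint_left]
          intro v hv hvB
          simp only [hB, mem_filter, mem_univ, true_and] at hvB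
          exact hvB.1 hv) (by
          intro d hd hdB
          simp only [hB, mem_filter, mem_univ, true_and] at hdB
          exact hdB.2 ⟨M.α d, rfl, by rw [M.α_inv]; exact hd⟩)
        have hsub : (univ \ (YV ∪ B)) ⊆ N := by
          intro v hv
          simp only [hB, mem_sdiff, mem_univ, true_and, mem_union, mem_filter, not_or] at hv
          simp only [hN, mem_filter, mem_univ, true_and]
          refine ⟨hv.1, ?_⟩
          by_contra hcon
          exact hv.2 ⟨hv.1, hcon⟩
        have := card_le_card hsub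
        have h0 : (0 : ℤ) ≤ ((YV ∩ {a₁, a₂, a₃}).card : ℤ) := Int.natCast_nonneg _
        have h3' : 3 ≤ N.card := le_trans h3 this
        zify at h3'
        linarith
      · have hBe : B = ∅ := not_nonempty_iff_eq_empty.1 hBn
        have hsub : ({a₁, a₂, a₃} : Finset V) ⊆ (YV ∩ {a₁, a₂, a₃}) ∪ N := by
          intro v hv
          by_cases hvY : v ∈ YV
          · exact mem_union_left _ (mem_inter.2 ⟨hvY, hv⟩)
          · apply mem_union_right
            simp only [hN, mem_filter, mem_univ, true_and]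
            refine ⟨hvY, ?_⟩
            by_contra hcon
            have : v ∈ B := by
              simp only [hB, mem_filter, mem_univ, true_and]
              exact ⟨hvY, hcon⟩
            rw [hBe] at this
            simp at this
        have h3 : ({a₁, a₂, a₃} : Finset V).card = 3 := by
          rw [card_insert_of_notMem, card_insert_of_notMem, card_singleton]
          · simpa using h23
          · simp only [mem_insert, mem_singleton, not_or]; exact ⟨h12, h13⟩
        have := (card_le_card hsub).trans (card_union_le _ _)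
        rw [h3] at this
        zify at this
        linarith
    zify at hfirst ⊢
    linarith

theorem bound_all (f₀ : F) (a₁ a₂ a₃ : V) (h12 : a₁ ≠ a₂) (h13 : a₁ ≠ a₃) (h23 : a₂ ≠ a₃)
    (hfull : ∀ d, M.Full YV YF d) :
    3 * (YV.card + YF.card) + (M.SE YV YF).card ≤
      (univ.filter (fun d => M.vt d ∈ YV)).card + (univ.filter (fun d => M.fc d ∈ YF)).card +
      (if f₀ ∈ YF then 3 else 0) + (YV ∩ {a₁, a₂, a₃}).card := by
  have hV : YV = univ := by
    ext v
    simp only [mem_univ, iff_true]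
    obtain ⟨d, rfl⟩ := M.vt_surj v
    exact (hfull d).1
  have hFF : YF = univ := by
    ext f
    simp only [mem_univ, iff_true]
    obtain ⟨d, rfl⟩ := M.fc_surj f
    exact (hfull d).2.2.1
  have hS : (M.SE YV YF).card ≤ Fintype.card E := card_le_univ _
  have hD := card_D M
  have he := M.euler
  have h3 : ({a₁, a₂, a₃} : Finset V).card = 3 := by
    rw [card_insert_of_notMem, card_insert_of_notMem, card_singleton]
    · simpa using h23
    · simp only [mem_insert, mem_singleton, not_or]; exact ⟨h12, h13⟩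
  have e1 : (univ.filter (fun d => M.vt d ∈ YV)).card = Fintype.card D := by
    rw [hV]; simp
  have e2 : (univ.filter (fun d => M.fc d ∈ YF)).card = Fintype.card D := by
    rw [hFF]; simp
  have e3 : (YV ∩ {a₁, a₂, a₃}).card = 3 := by rw [hV, univ_inter, h3]
  have e4 : f₀ ∈ YF := by rw [hFF]; exact mem_univ _
  have e5 : YV.card = Fintype.card V := by rw [hV, card_univ]
  have e6 : YF.card = Fintype.card F := by rw [hFF, card_univ]
  rw [e1, e2, e3, if_pos e4, e5, e6]
  omega

theorem bound_none (hdeg : ∀ v, 3 ≤ (univ.filter (fun d => M.vt d = v)).card)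
    (hlen : ∀ f, 3 ≤ (univ.filter (fun d => M.fc d = f)).card)
    (f₀ : F) (a₁ a₂ a₃ : V) (hnone : ∀ d, ¬ M.Full YV YF d) :
    3 * (YV.card + YF.card) + (M.SE YV YF).card ≤
      (univ.filter (fun d => M.vt d ∈ YV)).card + (univ.filter (fun d => M.fc d ∈ YF)).card +
      (if f₀ ∈ YF then 3 else 0) + (YV ∩ {a₁, a₂, a₃}).card := by
  have hS : (M.SE YV YF).card = 0 := by
    rw [card_eq_zero]
    ext e
    obtain ⟨d, rfl⟩ := M.ed_surj e
    rw [mem_SE]
    simp [hnone d]
  have e1 : 3 * YV.card ≤ (univ.filter (fun d => M.vt d ∈ YV)).card := by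
    rw [card_eq_sum_card_fiberwise (f := M.vt) (t := YV) (fun d hd => by simpa using hd)]
    calc 3 * YV.card = ∑ _v ∈ YV, 3 := by rw [sum_const, smul_eq_mul, mul_comm]
      _ ≤ _ := by
        refine sum_le_sum fun v hv => ?_
        refine le_trans (hdeg v) (card_le_card ?_)
        intro d hd
        simp only [mem_filter, mem_univ, true_and] at hd ⊢
        exact ⟨hd ▸ hv, hd⟩
  have e2 : 3 * YF.card ≤ (univ.filter (fun d => M.fc d ∈ YF)).card := by
    rw [card_eq_sum_card_fiberwise (f := M.fc) (t := YF) (fun d hd => by simpa using hd)]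
    calc 3 * YF.card = ∑ _v ∈ YF, 3 := by rw [sum_const, smul_eq_mul, mul_comm]
      _ ≤ _ := by
        refine sum_le_sum fun v hv => ?_
        refine le_trans (hlen v) (card_le_card ?_)
        intro d hd
        simp only [mem_filter, mem_univ, true_and] at hd ⊢
        exact ⟨hd ▸ hv, hd⟩
  rw [hS]
  omega

end

theorem stmtHallIneq (h : StmtHole) (hd : StmtDeg) : StmtHallIneq := by
  intro D V E F _ _ _ _ _ _ _ _ M hC f₀ a₁ a₂ a₃ h12 h13 h23
  obtain ⟨hdeg, hlen, _⟩ := hd D V E F M hC
  suffices H : ∀ n (YV : Finset V) (YF : Finset F), YV.card + YF.card ≤ n →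
      3 * (YV.card + YF.card) + (M.SE YV YF).card ≤
      (univ.filter (fun d => M.vt d ∈ YV)).card + (univ.filter (fun d => M.fc d ∈ YF)).card +
      (if f₀ ∈ YF then 3 else 0) + (YV ∩ {a₁, a₂, a₃}).card from
    fun YV YF => H _ YV YF le_rfl
  intro n
  induction n with
  | zero =>
    intro YV YF hn
    have hV : YV = ∅ := by rw [← card_eq_zero]; omega
    refine bound_none M YV YF hdeg hlen f₀ a₁ a₂ a₃ ?_
    intro d hdf
    have := hdf.1
    rw [hV] at this
    simp at this
  | succ n ih =>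
    intro YV YF hn
    by_cases hnone : ∀ d, ¬ M.Full YV YF d
    · exact bound_none M YV YF hdeg hlen f₀ a₁ a₂ a₃ hnone
    push Not at hnone
    obtain ⟨d₁, hd₁⟩ := hnone
    by_cases hCn : M.Cn YV YF
    · by_cases hall : ∀ d, M.Full YV YF d
      · exact bound_all M YV YF f₀ a₁ a₂ a₃ h12 h13 h23 hall
      · push Not at hall
        obtain ⟨d₂, hd₂⟩ := hall
        exact bound_c M YV YF h hdeg hC f₀ a₁ a₂ a₃ h12 h13 h23 hCn d₁ hd₁ d₂ hd₂
    · classical
      unfold PM.Cn at hCn
      push Not at hCn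
      obtain ⟨p, q, hpq, hn1, hn2⟩ := hCn
      have hfullsplit : ∀ d, M.Full YV YF d →
          M.Full (YV.filter p) (YF.filter q) d ∨
          M.Full (YV.filter (fun v => ¬ p v)) (YF.filter (fun f => ¬ q f)) d := by
        intro d hdf
        have h1 := hpq d hdf
        have h2 := hpq (M.α d) ((full_al M YV YF d).2 hdf)
        rw [M.α_inv] at h2
        unfold PM.Full at hdf ⊢
        simp only [mem_filter]
        by_cases hp : p (M.vt d)
        · left
          have q1 := h1.1.1 hp
          have q2 := h1.2.1 hp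
          have p2 := h2.1.2 q2
          exact ⟨⟨hdf.1, hp⟩, ⟨hdf.2.1, p2⟩, ⟨hdf.2.2.1, q1⟩, ⟨hdf.2.2.2, q2⟩⟩
        · right
          have q1 : ¬ q (M.fc d) := fun h => hp (h1.1.2 h)
          have q2 : ¬ q (M.fc (M.α d)) := fun h => hp (h1.2.2 h)
          have p2 : ¬ p (M.vt (M.α d)) := fun h => q2 (h2.1.1 h)
          exact ⟨⟨hdf.1, hp⟩, ⟨hdf.2.1, p2⟩, ⟨hdf.2.2.1, q1⟩, ⟨hdf.2.2.2, q2⟩⟩
      have hSE : (M.SE YV YF).card ≤ (M.SE (YV.filter p) (YF.filter q)).card +
          (M.SE (YV.filter (fun v => ¬ p v)) (YF.filter (fun f => ¬ q f))).card := by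
        refine le_trans (card_le_card ?_) (card_union_le _ _)
        intro e he
        obtain ⟨d, rfl⟩ := M.ed_surj e
        rw [mem_SE] at he
        rw [mem_union, mem_SE, mem_SE]
        exact hfullsplit d he
      have cV : (YV.filter p).card + (YV.filter (fun v => ¬ p v)).card = YV.card :=
        card_filter_add_card_filter_not _
      have cF : (YF.filter q).card + (YF.filter (fun f => ¬ q f)).card = YF.card :=
        card_filter_add_card_filter_not _
      have nV : (univ.filter (fun d => M.vt d ∈ YV.filter p)).card +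
          (univ.filter (fun d => M.vt d ∈ YV.filter (fun v => ¬ p v))).card =
          (univ.filter (fun d => M.vt d ∈ YV)).card := by
        rw [← card_filter_add_card_filter_not (s := univ.filter (fun d => M.vt d ∈ YV))
          (fun d => p (M.vt d)), filter_filter, filter_filter]
        simp only [mem_filter]
      have nF : (univ.filter (fun d => M.fc d ∈ YF.filter q)).card +
          (univ.filter (fun d => M.fc d ∈ YF.filter (fun f => ¬ q f))).card =
          (univ.filter (fun d => M.fc d ∈ YF)).card := by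
        rw [← card_filter_add_card_filter_not (s := univ.filter (fun d => M.fc d ∈ YF))
          (fun d => q (M.fc d)), filter_filter, filter_filter]
        simp only [mem_filter]
      have cA : (YV.filter p ∩ {a₁, a₂, a₃}).card +
          (YV.filter (fun v => ¬ p v) ∩ {a₁, a₂, a₃}).card = (YV ∩ {a₁, a₂, a₃}).card := by
        rw [← card_filter_add_card_filter_not (s := YV ∩ {a₁, a₂, a₃}) p, filter_inter,
          filter_inter]
      have cf : (if f₀ ∈ YF.filter q then 3 else 0) +
          (if f₀ ∈ YF.filter (fun f => ¬ q f) then 3 else 0) ≤ (if f₀ ∈ YF then 3 else 0) := by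
        simp only [mem_filter]
        by_cases g1 : f₀ ∈ YF <;> by_cases g2 : q f₀ <;> simp [g1, g2]
      -- both parts are smaller
      have s1 : 1 ≤ (YV.filter (fun v => ¬ p v)).card + (YF.filter (fun f => ¬ q f)).card := by
        by_contra hcon
        have z1 : (YV.filter (fun v => ¬ p v)) = ∅ := by rw [← card_eq_zero]; omega
        have z2 : (YF.filter (fun f => ¬ q f)) = ∅ := by rw [← card_eq_zero]; omega
        rw [filter_eq_empty_iff] at z1 z2
        obtain ⟨f, hf, hqf⟩ := hn1 (fun v hv => not_not.1 (z1 hv))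
        exact hqf (not_not.1 (z2 hf))
      have s2 : 1 ≤ (YV.filter p).card + (YF.filter q).card := by
        by_contra hcon
        have z1 : (YV.filter p) = ∅ := by rw [← card_eq_zero]; omega
        have z2 : (YF.filter q) = ∅ := by rw [← card_eq_zero]; omega
        rw [filter_eq_empty_iff] at z1 z2
        obtain ⟨f, hf, hqf⟩ := hn2 (fun v hv => z1 hv)
        exact z2 hf hqf
      have i1 := ih (YV.filter p) (YF.filter q) (by omega)
      have i2 := ih (YV.filter (fun v => ¬ p v)) (YF.filter (fun f => ¬ q f)) (by omega)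
      omega

end Helper67.VF
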