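import Pool.Agent.Helper67.VF.E
import Pool.Agent.Helper38.VF.Goals2

/-! Packet DEV of project VTF. -/

set_option autoImplicit false

namespace Pool.Agent.Helper67.VTF

open Pool.Agent.Helper27.VF Pool.Agent.Helper67.VF Pool.Agent.Helper38.VF

universe u

/-- **DEV** from **E**. -/
theorem dev (hPth : PthStmt.{u}) (hOra : OraStmt.{u}) (hFrd : FrdStmt.{u}) : DevStmt.{u} :=
  eStmt hPth hOra hFrd

end Pool.Agent.Helper67.VTF
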