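import Pool.Agent.Helper67.VF.E
import Pool.Agent.Helper67.VF.RF

/-! Packet DRX of project RF. -/

set_option autoImplicit false

namespace Pool.Agent.Helper67.RF

open Pool.Agent.Helper27.VF Pool.Agent.Helper67.VF

universe u

/-- **DRX** from **E**. -/
theorem drx_of_e (hE : EStmt.{u}) : DrxStmt.{u} := by
  intro A W _ _ G G₀ w p h k hk htf hSS
  obtain ⟨x, g, hg, hM⟩ := hE A W G G₀ w p h k hk htf hSS
  refine ⟨g, hg, fun M _ _ => ?_⟩
  choose Θ h1 h2 h3 using fun m : M => hM M m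
  refine ⟨Θ, fun m => ⟨h1 m, h2 m⟩, fun m m' hmm => ?_⟩
  have h4 : m - g • m = m' - g • m' := by
    rw [← h3 m, ← h3 m', hmm]
  rw [smul_sub, sub_eq_sub_iff_add_eq_add, add_comm, ← sub_eq_sub_iff_add_eq_add.1 h4]

theorem drx (hPth : PthStmt.{u}) (hOra : OraStmt.{u}) (hFrd : FrdStmt.{u}) : DrxStmt.{u} :=
  drx_of_e (eStmt hPth hOra hFrd)

end Pool.Agent.Helper67.RF
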