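import Pool.Agent.Helper27.VF.Goals

/-!
# Projects RF / VTF (strengthenings of VF): derivations which vanish on `BB`

Fix `d ∈ DD`. For `h ∈ A` let `σ h x` say that `x` is on the second side of `h d`. For `x` the set
`supp x` of the `h` with `σ h x ≠ σ h 1` is finite, and `x ↦ ∑ (σ h x - σ h 1) h m` is a derivation
which vanishes on `BB`. If `supp x` is as small as possible among the `x` on the second side of `d`,
then it is `{1}` or `{1, g}` and the value at `x` is `m` or `m - g m`.
-/

set_option autoImplicit false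

namespace Pool.Agent.Helper67.VF

open Pool.Agent.Helper27.VF

universe u

/-- **E.** -/
def EStmt : Prop := ∀ (A W : Type u) [Group A] [MulAction A W] (G G₀ : SimpleGraph W) (w : W)
  (p : Ultrafilter W), Stg A G G₀ w p → ∀ k : ℕ, Mn A G p k →
  (∀ (a : A) (n : ℕ), 0 < n → a ^ n = 1 → a = 1) → (SS A G p k).Nonempty →
  ∃ x g : A, g ≠ 1 ∧ ∀ (M : Type u) [AddCommGroup M] [DistribMulAction A M] (m : M),
    ∃ δ : A → M, IsDer δ ∧ (∀ b ∈ BB A G p k, δ b = 0) ∧ δ x = m - g • m

section
variable {A W : Type u} [Group A] [MulAction A W] {G G₀ : SimpleGraph W} {w : W}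
  {p : Ultrafilter W} {k : ℕ}

/-- `x` is on the second side of `h d` -/
def Sd (p : Ultrafilter W) (d : Set W × Set W) (h x : A) : Prop := Inn p x (tr h d).2

/-- the support -/
def Sp (p : Ultrafilter W) (d : Set W × Set W) (x : A) : Set A :=
  {h | ¬ (Sd p d h x ↔ Sd p d h 1)}

theorem sd_mul (d : Set W × Set W) (z h x : A) : Sd p d (z * h) (z * x) ↔ Sd p d h x := by
  unfold Sd
  rw [inn_tr_snd, inn_tr_snd]
  have : (z * h)⁻¹ * (z * x) = h⁻¹ * x := by group
  rw [this]

theorem cor_comm (c d : Set W × Set W) : cor c d = cor d c := by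
  unfold cor
  rw [Set.inter_comm, Set.union_comm]

theorem lw_cor (c d : Set W × Set W) : Lw (cor c d) c := by
  refine ⟨Set.inter_subset_left, Set.subset_union_left⟩

/-- translates of elements of `DD` are minimal -/
theorem min_tr (h : Stg A G G₀ w p) {d : Set W × Set W} (hd : d ∈ DD A G p k) (g : A)
    {c : Set W × Set W} (hc : c ∈ SS A G p k) (h1 : Inn p g c.1) (h2 : Lw c (tr g d)) :
    c = tr g d := by
  have e1 : tr g⁻¹ c = d := by
    refine hd.2.2 _ (SS.tr h hc g⁻¹) ?_ ⟨?_, ?_⟩
    · rw [inn_tr_fst]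
      simpa using h1
    · intro y hy
      have h3 := h2.1 hy
      unfold tr at h3
      simpa using h3
    · intro y hy
      show g⁻¹⁻¹ • y ∈ c.2
      refine h2.2 ?_
      show g⁻¹ • (g⁻¹⁻¹ • y) ∈ d.2
      simpa using hy
  rw [← e1, tr_tr, mul_inv_cancel, tr_one]

/-- nestedness -/
theorem nest (h : Stg A G G₀ w p) (hk : Mn A G p k) {d : Set W × Set W} (hd : d ∈ DD A G p k)
    (g y : A) {f : Set W × Set W} (hf : f ∈ SS A G p k) (h1 : Inn p g f.1)
    (h2 : Inn p y (tr g d).2) (h3 : Inn p y f.2) : cor (tr g d) f = tr g d := by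
  have hg : Inn p g (tr g d).1 := by
    rw [inn_tr_fst, inv_mul_cancel]
    exact hd.2.1
  have h4 := (corner hk (SS.tr h hd.1 g) hf (inn_inter.2 ⟨hg, h1⟩) (inn_inter.2 ⟨h2, h3⟩)).1
  exact min_tr h hd g h4 (inn_inter.2 ⟨hg, h1⟩) (lw_cor _ _)

theorem nest_sub (h : Stg A G G₀ w p) (hk : Mn A G p k) {d : Set W × Set W}
    (hd : d ∈ DD A G p k) (g y : A) {f : Set W × Set W} (hf : f ∈ SS A G p k) (h1 : Inn p g f.1)
    (h2 : Inn p y (tr g d).2) (h3 : Inn p y f.2) : (tr g d).1 ⊆ f.1 := by
  have h4 := nest h hk hd g y hf h1 h2 h3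
  have h5 := congrArg Prod.fst h4
  intro x hx
  rw [← h5] at hx
  exact hx.2

theorem inn_fst_iff (h : Stg A G G₀ w p) {d : Set W × Set W} (hd : d ∈ SS A G p k) (g x : A) :
    Inn p x (tr g d).1 ↔ ¬ Sd p d g x := by
  have := inn_snd h (SS.tr h hd g).1 (a := x)
  unfold Sd
  tauto

theorem sp_finite (h : Stg A G G₀ w p) {d : Set W × Set W} (hd : d ∈ DD A G p k)
    (hP : ∀ x y : W, {c | c ∈ SS A G p k ∧ x ∉ c.2 ∧ y ∉ c.1}.Finite)
    (hF : ∀ g : A, tr g d = d → g = 1) (x : A) : (Sp p d x).Finite := by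
  have hinj : Function.Injective (fun g : A => tr g d) := by
    intro g g' hg
    have h1 : tr (g'⁻¹ * g) d = d := by
      have h2 : tr g'⁻¹ (tr g d) = tr g'⁻¹ (tr g' d) := congrArg _ hg
      rwa [tr_tr, tr_tr, inv_mul_cancel, tr_one] at h2
    have := hF _ h1
    rw [inv_mul_eq_one] at this
    exact this.symm
  have hfin := ((hP w (x • w)).union (hP (x • w) w)).preimage (f := fun g : A => tr g d)
    (hinj.injOn)
  refine hfin.subset ?_
  intro g hg
  have hs := SS.tr h hd.1 g
  have e1 : Inn p x (tr g d).1 ↔ ¬ Sd p d g x := inn_fst_iff h hd.1 g x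
  have e2 : Inn p (1 : A) (tr g d).1 ↔ ¬ Sd p d g 1 := inn_fst_iff h hd.1 g 1
  by_cases hx : Sd p d g x
  · have h1 : ¬ Sd p d g 1 := fun h1 => hg (iff_of_true hx h1)
    left
    refine ⟨hs, fun hw => h1 ?_, fun hw => ?_⟩
    · exact fact1' h hs.1 (a := (1 : A)) (by rwa [one_smul])
    · exact (e1.1 (fact1 h hs.1 hw)) hx
  · have h1 : Sd p d g 1 := by
      by_contra h1
      exact hg (iff_of_false hx h1)
    right
    refine ⟨hs, fun hw => hx ?_, fun hw => ?_⟩
    · exact fact1' h hs.1 hw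
    · exact (e2.1 (fact1 h hs.1 (a := (1 : A)) (by rwa [one_smul]))) h1

/-- The combinatorial part: the smallest support. -/
theorem support (h : Stg A G G₀ w p) (hk : Mn A G p k) {d : Set W × Set W} (hd : d ∈ DD A G p k)
    (hP : ∀ x y : W, {c | c ∈ SS A G p k ∧ x ∉ c.2 ∧ y ∉ c.1}.Finite)
    (hF : ∀ g : A, tr g d = d → g = 1) :
    ∃ x : A, Sd p d (1 : A) x ∧ ¬ Sd p d (1 : A) (1 : A) ∧ (Sp p d x = {(1 : A)} ∨
      ∃ g : A, g ≠ 1 ∧ Sp p d x = {1, g} ∧ Sd p d g (1 : A) ∧ ¬ Sd p d g x) := by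
  have hfin := sp_finite h hd hP hF
  obtain ⟨a, b, hab⟩ := hd.1.2.2
  have hb : Sd p d (1 : A) b := by
    unfold Sd
    rw [tr_one]
    exact hab.2
  obtain ⟨x, hx, hmin⟩ := WellFounded.has_min (measure (fun x : A => (Sp p d x).ncard)).wf
    {x : A | Sd p d (1 : A) x} ⟨b, hb⟩
  have hmin' : ∀ y : A, Sd p d (1 : A) y → (Sp p d x).ncard ≤ (Sp p d y).ncard := by
    intro y hy
    have := hmin y hy
    exact not_lt.1 this
  have h11 : ¬ Sd p d (1 : A) (1 : A) := by
    have := (inn_fst_iff h hd.1 1 1).1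
    apply this
    rw [tr_one]
    exact hd.2.1
  have hgg : ∀ g : A, ¬ Sd p d g g := by
    intro g
    have := (sd_mul (p := p) d g 1 1)
    rw [mul_one] at this
    rw [this]
    exact h11
  have h1x : (1 : A) ∈ Sp p d x := fun hc => h11 (hc.1 hx)
  -- inclusion of supports
  have hsub : ∀ g y : A, Sd p d g y → ∀ z : A, ¬ Sd p d g z →
      ((y = 1 ∧ z = x) ∨ (y = x ∧ z = 1)) → Sp p d g ⊆ Sp p d x := by
    intro g y hy z hz hyz q hq hcon
    -- `q` separates `g` from `1` and `x`
    have hs := SS.tr h hd.1 q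
    have hcon' : (Sd p d q y ↔ Sd p d q z) := by
      rcases hyz with ⟨rfl, rfl⟩ | ⟨rfl, rfl⟩
      · exact hcon.symm
      · exact hcon
    have hgz : ¬ (Sd p d q g ↔ Sd p d q z) := by
      intro h1
      apply hq
      rcases hyz with ⟨rfl, rfl⟩ | ⟨rfl, rfl⟩
      · exact h1.trans hcon
      · exact h1
    have hz1 : Inn p z (tr g d).1 := (inn_fst_iff h hd.1 g z).2 hz
    by_cases hqg : Sd p d q g
    · -- `g` on the second side: swap
      have hqz : ¬ Sd p d q z := fun h1 => hgz (iff_of_true hqg h1)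
      have hqy : ¬ Sd p d q y := fun h1 => hqz (hcon'.1 h1)
      have h5 := nest_sub h hk hd g y (SS.swap hs) hqg hy ((inn_fst_iff h hd.1 q y).2 hqy)
      exact hqz (inn_mono h5 hz1)
    · have hqz : Sd p d q z := by
        by_contra h1
        exact hgz (iff_of_false hqg h1)
      have hqy : Sd p d q y := hcon'.2 hqz
      have h5 := nest_sub h hk hd g y hs ((inn_fst_iff h hd.1 q g).2 hqg) hy hqy
      exact ((inn_fst_iff h hd.1 q z).1 (inn_mono h5 hz1)) hqz
  -- an element of the support of `x` different from `1`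
  have caseB : ∀ g ∈ Sp p d x, g ≠ 1 → Sd p d g 1 ∧ ¬ Sd p d g x ∧ Sp p d g = Sp p d x := by
    intro g hg hg1
    by_cases hgx : Sd p d g x
    · -- case A
      exfalso
      have hg1' : ¬ Sd p d g 1 := fun h1 => hg (iff_of_true hgx h1)
      have h1e : Inn p (1 : A) (tr g d).1 := (inn_fst_iff h hd.1 g 1).2 hg1'
      have hdx : Inn p x (tr (1 : A) d).2 := hx
      have A1 : Sd p d 1 g := by
        by_contra hcon
        have h1 := nest h hk hd 1 x (SS.tr h hd.1 g) h1e hdx hgx
        have h2 := nest h hk hd g x (SS.tr h hd.1 1) ((inn_fst_iff h hd.1 1 g).2 hcon) hgx hdx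
        rw [cor_comm, h1, tr_one] at h2
        exact hg1 (hF g h2.symm)
      have A2 := hsub g x hgx 1 hg1' (Or.inr ⟨rfl, rfl⟩)
      have hgn : g ∉ Sp p d g := fun hc => hc (iff_of_false (hgg g) hg1')
      have hlt : (Sp p d g).ncard < (Sp p d x).ncard :=
        Set.ncard_lt_ncard ⟨A2, fun hc => hgn (hc hg)⟩ (hfin x)
      exact absurd (hmin' g A1) (not_le.2 hlt)
    · have hg1' : Sd p d g 1 := by
        by_contra h1
        exact hg (iff_of_false hgx h1)
      have B1 : Sd p d 1 g := by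
        by_contra hcon
        have h1 := nest_sub h hk hd 1 x (SS.swap (SS.tr h hd.1 g)) hg1' hx
          ((inn_fst_iff h hd.1 g x).2 hgx)
        have h2 : Inn p g (tr (1 : A) d).1 := (inn_fst_iff h hd.1 1 g).2 hcon
        exact hgg g (inn_mono h1 h2)
      have B2 := hsub g 1 hg1' x hgx (Or.inl ⟨rfl, rfl⟩)
      exact ⟨hg1', hgx, Set.eq_of_subset_of_ncard_le B2 (hmin' g B1) (hfin x)⟩
  refine ⟨x, hx, h11, ?_⟩
  by_cases hall : ∃ g ∈ Sp p d x, g ≠ 1
  · obtain ⟨g, hg, hg1⟩ := hall
    obtain ⟨b1, b2, b3⟩ := caseB g hg hg1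
    refine Or.inr ⟨g, hg1, ?_, b1, b2⟩
    apply Set.eq_of_subset_of_subset
    · intro g' hg'
      by_cases hg'1 : g' = 1
      · exact Or.inl hg'1
      right
      obtain ⟨c1, c2, c3⟩ := caseB g' hg' hg'1
      -- all `q` are on the same side of `g`, `g'`, `x`
      have hside : ∀ g₁ : A, Sp p d g₁ = Sp p d x → ∀ q : A, (Sd p d q g₁ ↔ Sd p d q x) := by
        intro g₁ he q
        by_cases hq : q ∈ Sp p d x
        · have hq' : q ∈ Sp p d g₁ := by rw [he]; exact hq
          have f1 : ¬ (Sd p d q x ↔ Sd p d q 1) := hq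
          have f2 : ¬ (Sd p d q g₁ ↔ Sd p d q 1) := hq'
          tauto
        · have hq' : q ∉ Sp p d g₁ := by rw [he]; exact hq
          have f1 : (Sd p d q x ↔ Sd p d q 1) := not_not.1 hq
          have f2 : (Sd p d q g₁ ↔ Sd p d q 1) := not_not.1 hq'
          exact f2.trans f1.symm
      have s1 : ¬ Sd p d g' g := fun hc => c2 ((hside g b3 g').1 hc)
      have s2 : ¬ Sd p d g g' := fun hc => b2 ((hside g' c3 g).1 hc)
      have n1 := nest h hk hd g 1 (SS.tr h hd.1 g') ((inn_fst_iff h hd.1 g' g).2 s1) b1 c1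
      have n2 := nest h hk hd g' 1 (SS.tr h hd.1 g) ((inn_fst_iff h hd.1 g g').2 s2) c1 b1
      rw [cor_comm, n1] at n2
      have h3 : tr (g'⁻¹ * g) d = d := by
        have h4 : tr g'⁻¹ (tr g d) = tr g'⁻¹ (tr g' d) := congrArg _ n2
        rwa [tr_tr, tr_tr, inv_mul_cancel, tr_one] at h4
      have h5 := hF _ h3
      rw [inv_mul_eq_one] at h5
      exact h5
    · rintro q (rfl | rfl)
      · exact h1x
      · exact hg
  · left
    apply Set.eq_of_subset_of_subset
    · intro q hq
      by_contra hcon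
      exact hall ⟨q, hq, hcon⟩
    · rintro q rfl
      exact h1x

open Classical in
/-- the derivation -/
theorem deriv (h : Stg A G G₀ w p) {d : Set W × Set W} (hd : d ∈ DD A G p k)
    (hfin : ∀ x : A, (Sp p d x).Finite) {M : Type u} [AddCommGroup M] [DistribMulAction A M]
    (m : M) : ∃ δ : A → M, IsDer δ ∧ (∀ b ∈ BB A G p k, δ b = 0) ∧
      ∀ x, δ x = ∑ᶠ q : A, ((if Sd p d q x then (1 : ℤ) else 0) -
        (if Sd p d q 1 then (1 : ℤ) else 0)) • (q • m) := by
  set z : A → A → ℤ := fun q x => if Sd p d q x then (1 : ℤ) else 0 with hz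
  have hsupp : ∀ x : A, (Function.support fun q : A => (z q x - z q 1) • (q • m)) ⊆ Sp p d x := by
    intro x q hq hcon
    apply hq
    have : z q x = z q 1 := by
      simp only [hz]
      by_cases h1 : Sd p d q 1
      · rw [if_pos h1, if_pos (hcon.2 h1)]
      · rw [if_neg h1, if_neg (fun h2 => h1 (hcon.1 h2))]
    show (z q x - z q 1) • (q • m) = 0
    rw [this, sub_self, zero_smul]
  have hmul : ∀ a q x : A, z (a * q) (a * x) = z q x := by
    intro a q x
    simp only [hz]
    by_cases h1 : Sd p d q x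
    · rw [if_pos h1, if_pos ((sd_mul d a q x).2 h1)]
    · rw [if_neg h1, if_neg (fun h2 => h1 ((sd_mul d a q x).1 h2))]
  refine ⟨fun x => ∑ᶠ q : A, (z q x - z q 1) • (q • m), ?_, ?_, fun x => rfl⟩
  · intro x y
    show ∑ᶠ q : A, (z q (x * y) - z q 1) • (q • m)
      = ∑ᶠ q : A, (z q x - z q 1) • (q • m) + x • ∑ᶠ q : A, (z q y - z q 1) • (q • m)
    have e1 : x • ∑ᶠ q : A, (z q y - z q 1) • (q • m)
        = ∑ᶠ q : A, (z q (x * y) - z q x) • (q • m) := by
      have e2 : (∑ᶠ q : A, (z q (x * y) - z q x) • (q • m))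
          = ∑ᶠ q : A, (z (x * q) (x * y) - z (x * q) x) • ((x * q) • m) :=
        (finsum_comp_equiv (Equiv.mulLeft x)
          (f := fun q : A => (z q (x * y) - z q x) • (q • m))).symm
      rw [e2]
      have e3 := map_finsum (DistribSMul.toAddMonoidHom M x)
        (f := fun q : A => (z q y - z q 1) • (q • m)) ((hfin y).subset (hsupp y))
      have e4 : x • ∑ᶠ q : A, (z q y - z q 1) • (q • m)
          = ∑ᶠ q : A, x • ((z q y - z q 1) • (q • m)) := e3
      rw [e4]
      refine finsum_congr fun q => ?_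
      have e5 : z (x * q) x = z q 1 := by
        have := hmul x q 1
        rwa [mul_one] at this
      rw [hmul, e5, mul_smul, smul_comm]
    rw [e1, ← finsum_add_distrib ((hfin x).subset (hsupp x))]
    · refine finsum_congr fun q => ?_
      rw [← add_smul]
      congr 1
      ring
    · -- finiteness of the second support
      have : (Function.support fun q : A => (z q (x * y) - z q x) • (q • m))
          ⊆ Sp p d (x * y) ∪ Sp p d x := by
        intro q hq
        by_contra hcon
        rw [Set.mem_union, not_or] at hcon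
        apply hq
        show (z q (x * y) - z q x) • (q • m) = 0
        have f1 : (Sd p d q (x * y) ↔ Sd p d q 1) := not_not.1 hcon.1
        have f2 : (Sd p d q x ↔ Sd p d q 1) := not_not.1 hcon.2
        have : z q (x * y) = z q x := by
          simp only [hz]
          by_cases h1 : Sd p d q 1
          · rw [if_pos (f1.2 h1), if_pos (f2.2 h1)]
          · rw [if_neg (fun h2 => h1 (f1.1 h2)), if_neg (fun h2 => h1 (f2.1 h2))]
        rw [this, sub_self, zero_smul]
      exact ((hfin _).union (hfin _)).subset this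
  · intro b hb
    show ∑ᶠ q : A, (z q b - z q 1) • (q • m) = 0
    have : ∀ q : A, (z q b - z q 1) • (q • m) = 0 := by
      intro q
      have hs := SS.tr h hd.1 q
      have h1 := hb 1 _ hs
      rw [one_mul] at h1
      have e1 := inn_fst_iff h hd.1 q b
      have e2 := inn_fst_iff h hd.1 q 1
      have : z q b = z q 1 := by
        simp only [hz]
        by_cases h3 : Sd p d q 1
        · have : Sd p d q b := by
            by_contra h4
            exact (e2.1 (h1.1 (e1.2 h4))) h3
          rw [if_pos h3, if_pos this]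
        · have : ¬ Sd p d q b := by
            exact e1.1 (h1.2 (e2.2 h3))
          rw [if_neg h3, if_neg this]
      rw [this, sub_self, zero_smul]
    simp only [this, finsum_zero]

end

theorem eStmt (hPth : PthStmt.{u}) (hOra : OraStmt.{u}) (hFrd : FrdStmt.{u}) : EStmt.{u} := by
  classical
  intro A W _ _ G G₀ w p h k hk htf hSS
  have hP := hPth A W G G₀ w p h k hk
  have hO := hOra A W G G₀ w p h k hk
  have hF := (hFrd A W G G₀ w p h k hk htf).2
  obtain ⟨c, hc⟩ := hSS
  have hc' : ∃ c ∈ SS A G p k, Inn p (1 : A) c.1 := by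
    by_cases h1 : Inn p (1 : A) c.1
    · exact ⟨c, hc, h1⟩
    · exact ⟨(c.2, c.1), SS.swap hc, (inn_snd h hc.1).2 h1⟩
  obtain ⟨c', hc1, hc2⟩ := hc'
  obtain ⟨d, hd, -⟩ := hO.1 c' hc1 hc2
  have hfin := sp_finite h hd hP (fun g => hF g d hd)
  obtain ⟨x, hx, h11, hcase⟩ := support h hk hd hP (fun g => hF g d hd)
  rcases hcase with hcase | ⟨g, hg1, hcase, hs1, hs2⟩
  · -- support `{1}`
    have hx1 : x ≠ 1 := by
      rintro rfl
      exact h11 hx
    refine ⟨x, x, hx1, fun M _ _ m => ?_⟩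
    obtain ⟨δ, h1, h2, h3⟩ := deriv h hd hfin (m - x • m)
    refine ⟨δ, h1, h2, ?_⟩
    rw [h3, finsum_eq_sum_of_support_subset (s := {1})]
    · rw [Finset.sum_singleton, if_pos hx, if_neg h11, sub_zero, one_smul, one_smul]
    · intro q hq
      have : q ∈ Sp p d x := by
        intro hcon
        apply hq
        show ((if Sd p d q x then (1 : ℤ) else 0) - (if Sd p d q 1 then (1 : ℤ) else 0)) •
          (q • (m - x • m)) = 0
        by_cases h4 : Sd p d q 1
        · rw [if_pos h4, if_pos (hcon.2 h4), sub_self, zero_smul]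
        · rw [if_neg h4, if_neg (fun h5 => h4 (hcon.1 h5)), sub_self, zero_smul]
      rw [hcase] at this
      simpa using this
  · refine ⟨x, g, hg1, fun M _ _ m => ?_⟩
    obtain ⟨δ, h1, h2, h3⟩ := deriv h hd hfin m
    refine ⟨δ, h1, h2, ?_⟩
    rw [h3, finsum_eq_sum_of_support_subset (s := {1, g})]
    · rw [Finset.sum_pair (Ne.symm hg1), if_pos hx, if_neg h11, if_neg hs2, if_pos hs1, sub_zero,
        one_smul, one_smul, zero_sub, neg_smul, one_smul, sub_eq_add_neg]
    · intro q hq
      have : q ∈ Sp p d x := by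
        intro hcon
        apply hq
        show ((if Sd p d q x then (1 : ℤ) else 0) - (if Sd p d q 1 then (1 : ℤ) else 0)) •
          (q • m) = 0
        by_cases h4 : Sd p d q 1
        · rw [if_pos h4, if_pos (hcon.2 h4), sub_self, zero_smul]
        · rw [if_neg h4, if_neg (fun h5 => h4 (hcon.1 h5)), sub_self, zero_smul]
      rw [hcase] at this
      simpa using this

end Pool.Agent.Helper67.VF
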