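import Pool.Agent.Helper38.VF.Goals2

/-! Packet FOX of project VTF. -/

set_option autoImplicit false

namespace Pool.Agent.Helper67.VTF

open Pool.Agent.Helper27.VF Pool.Agent.Helper38.VF

universe u

section
variable {A : Type u} [Group A] [DistribMulAction A (L2 A)]

theorem norm_left (hL : LeftAct A) (g : A) (f : L2 A) : ‖g • f‖ = ‖f‖ := by
  have h2 : (0 : ℝ) < (2 : ENNReal).toReal := by norm_num
  rw [lp.norm_eq_tsum_rpow h2, lp.norm_eq_tsum_rpow h2]
  congr 1
  have h3 : ∀ a : A, ‖(g • f) a‖ ^ (2 : ENNReal).toReal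
      = (fun b : A => ‖f b‖ ^ (2 : ENNReal).toReal) (Equiv.mulLeft g⁻¹ a) := by
    intro a
    rw [hL]
    rfl
  rw [tsum_congr h3]
  exact Equiv.tsum_eq (Equiv.mulLeft g⁻¹) (fun b : A => ‖f b‖ ^ (2 : ENNReal).toReal)

/-- left translation as a continuous linear map -/
noncomputable def lef (hL : LeftAct A) (g : A) : L2 A →L[ℝ] L2 A :=
  LinearMap.mkContinuous
    { toFun := fun f => g • f
      map_add' := fun f f' => smul_add g f f'
      map_smul' := by
        intro r f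
        ext a
        rw [RingHom.id_apply, hL, lp.coeFn_smul, lp.coeFn_smul, Pi.smul_apply, Pi.smul_apply, hL] }
    1 (by
      intro f
      rw [one_mul]
      exact (norm_left hL g f).le)

theorem lef_apply (hL : LeftAct A) (g : A) (f : L2 A) : lef hL g f = g • f := rfl

/-- equivariance -/
def Eq1 {n : ℕ} (c : (Fin n → L2 A) →L[ℝ] L2 A) : Prop :=
  ∀ (h : A) (f f' : Fin n → L2 A), (∀ i b, f' i b = f i (b * h)) → ∀ b, c f' b = c f (b * h)

theorem one_op (hL : LeftAct A) {n : ℕ} (a : Fin n → A)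
    (hcl : Subgroup.closure (Set.range a) = ⊤) (x : A) :
    ∃ c : (Fin n → L2 A) →L[ℝ] L2 A, Eq1 c ∧
      ∀ δ : A → L2 A, IsDer δ → c (fun i => δ (a i)) = δ x := by
  have hx : x ∈ Subgroup.closure (Set.range a) := by
    rw [hcl]
    exact Subgroup.mem_top x
  have hone : ∀ δ : A → L2 A, IsDer δ → δ 1 = 0 := by
    intro δ hδ
    have h1 := hδ 1 1
    rw [one_smul, mul_one] at h1
    exact (left_eq_add.1 h1)
  refine Subgroup.closure_induction (p := fun x _ =>
    ∃ c : (Fin n → L2 A) →L[ℝ] L2 A, Eq1 c ∧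
      ∀ δ : A → L2 A, IsDer δ → c (fun i => δ (a i)) = δ x) ?_ ?_ ?_ ?_ hx
  · rintro _ ⟨i, rfl⟩
    refine ⟨ContinuousLinearMap.proj i, ?_, fun δ _ => rfl⟩
    intro h f f' hf b
    exact hf i b
  · refine ⟨0, ?_, fun δ hδ => ?_⟩
    · intro h f f' hf b
      rfl
    · rw [hone δ hδ]
      rfl
  · rintro x y - - ⟨c, hc, hc'⟩ ⟨d, hd, hd'⟩
    refine ⟨c + (lef hL x).comp d, ?_, fun δ hδ => ?_⟩
    · intro h f f' hf b
      show (c f' + x • d f') b = (c f + x • d f) (b * h)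
      rw [lp.coeFn_add, lp.coeFn_add, Pi.add_apply, Pi.add_apply, hL, hL, hc h f f' hf b,
        hd h f f' hf, mul_assoc]
    · show c (fun i => δ (a i)) + x • d (fun i => δ (a i)) = δ (x * y)
      rw [hc' δ hδ, hd' δ hδ, hδ x y]
  · rintro x - ⟨c, hc, hc'⟩
    refine ⟨-((lef hL x⁻¹).comp c), ?_, fun δ hδ => ?_⟩
    · intro h f f' hf b
      show (-(x⁻¹ • c f')) b = (-(x⁻¹ • c f)) (b * h)
      rw [lp.coeFn_neg, lp.coeFn_neg, Pi.neg_apply, Pi.neg_apply, hL, hL, hc h f f' hf, mul_assoc]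
    · show -(x⁻¹ • c (fun i => δ (a i))) = δ x⁻¹
      rw [hc' δ hδ]
      have h1 := hδ x⁻¹ x
      rw [inv_mul_cancel, hone δ hδ] at h1
      exact (eq_neg_of_add_eq_zero_left h1.symm).symm

end

theorem fox (hKur : KurStmt.{u}) : FoxStmt.{u} := by
  intro A _ _ hL n k a x hcl
  choose c hc hc' using fun i : Fin k => one_op hL a hcl (x i)
  obtain ⟨Tn, hTn⟩ := hKur A n
  obtain ⟨Tk, hTk⟩ := hKur A k
  have hTn' : ∀ (f : L2 (Fin n × A)) i b, Tn.symm f i b = f (i, b) := by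
    intro f i b
    rw [← hTn, ContinuousLinearEquiv.apply_symm_apply]
  refine ⟨(Tk : (Fin k → L2 A) →L[ℝ] L2 (Fin k × A)).comp
    ((ContinuousLinearMap.pi c).comp (Tn.symm : L2 (Fin n × A) →L[ℝ] (Fin n → L2 A))), ?_, ?_⟩
  · intro h f f' hf z
    show Tk (fun i => c i (Tn.symm f')) z = Tk (fun i => c i (Tn.symm f)) (z.1, z.2 * h)
    have e1 := hTk (fun i => c i (Tn.symm f')) z.1 z.2
    have e2 := hTk (fun i => c i (Tn.symm f)) z.1 (z.2 * h)
    rw [e2]
    refine e1.trans ?_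
    refine hc z.1 h _ _ ?_ z.2
    intro i b
    rw [hTn', hTn']
    exact hf (i, b)
  · intro δ hδ e he i b
    show Tk (fun i => c i (Tn.symm e)) (i, b) = δ (x i) b
    rw [hTk]
    have : Tn.symm e = fun i => δ (a i) := by
      funext j
      ext b
      rw [hTn', he]
    rw [this, hc' i δ hδ]

end Pool.Agent.Helper67.VTF
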