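import Mathlib

/-!
# M. Hall: a finitely generated proper subgroup of a free group lies in a proper subgroup of
finite index
-/

set_option autoImplicit false

namespace Pool.Agent.Helper67.VF

open Classical in
/-- the partial action of `g` on a finite set `Ω` of points, extended to a permutation -/
noncomputable def ext {G Y : Type*} [Group G] [MulAction G Y] (Ω : Finset Y) (g : G) :
    Equiv.Perm Ω :=
  Equiv.extendSubtype (p := fun y : Ω => g • (y : Y) ∈ Ω) (q := fun y : Ω => g⁻¹ • (y : Y) ∈ Ω)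
    { toFun := fun y => ⟨⟨g • (y.1 : Y), y.2⟩, by
        show g⁻¹ • (g • (y.1 : Y)) ∈ Ω
        rw [inv_smul_smul]; exact y.1.2⟩
      invFun := fun y => ⟨⟨g⁻¹ • (y.1 : Y), y.2⟩, by
        show g • (g⁻¹ • (y.1 : Y)) ∈ Ω
        rw [smul_inv_smul]; exact y.1.2⟩
      left_inv := fun y => by
        apply Subtype.ext; apply Subtype.ext
        exact inv_smul_smul _ _
      right_inv := fun y => by
        apply Subtype.ext; apply Subtype.ext
        exact smul_inv_smul _ _ }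

theorem ext_apply {G Y : Type*} [Group G] [MulAction G Y] (Ω : Finset Y) (g : G) (y : Ω)
    (h : g • (y : Y) ∈ Ω) : ext Ω g y = ⟨g • (y : Y), h⟩ := by
  classical
  unfold ext
  exact Equiv.extendSubtype_apply_of_mem _ y h

theorem ext_symm_apply {G Y : Type*} [Group G] [MulAction G Y] (Ω : Finset Y) (g : G) (y : Ω)
    (h : g⁻¹ • (y : Y) ∈ Ω) : (ext Ω g)⁻¹ y = ⟨g⁻¹ • (y : Y), h⟩ := by
  rw [Equiv.Perm.inv_eq_iff_eq]
  have h2 : g • ((⟨g⁻¹ • (y : Y), h⟩ : Ω) : Y) ∈ Ω := by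
    show g • (g⁻¹ • (y : Y)) ∈ Ω
    rw [smul_inv_smul]; exact y.2
  rw [ext_apply Ω g _ h2]
  apply Subtype.ext
  exact (smul_inv_smul _ _).symm

/-- a word acts on the starting point as it should, if the path stays in `Ω` -/
theorem path {X Y : Type*} [MulAction (FreeGroup X) Y] (Ω : Finset Y) (y0 : Ω)
    (L : List (X × Bool)) (h : ∀ L' : List (X × Bool), L' <:+ L → FreeGroup.mk L' • (y0 : Y) ∈ Ω) :
    ((FreeGroup.lift (fun x => ext Ω (FreeGroup.of x)) (FreeGroup.mk L) y0 : Ω) : Y)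
      = FreeGroup.mk L • (y0 : Y) := by
  induction L with
  | nil =>
    have : FreeGroup.mk ([] : List (X × Bool)) = 1 := rfl
    rw [this, map_one, one_smul]
    rfl
  | cons a L ih =>
    obtain ⟨x, b⟩ := a
    have ih' := ih (fun L' hL' => h L' (hL'.trans (List.suffix_cons _ _)))
    have hL : FreeGroup.mk L • (y0 : Y) ∈ Ω := h L (List.suffix_cons _ _)
    have hmul : FreeGroup.mk ((x, b) :: L) = FreeGroup.mk [(x, b)] * FreeGroup.mk L := by
      rw [FreeGroup.mul_mk]; rfl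
    have hxL := h ((x, b) :: L) (List.suffix_refl _)
    rw [hmul] at hxL ⊢
    rw [mul_smul] at hxL ⊢
    rw [map_mul, Equiv.Perm.mul_apply]
    have hy : FreeGroup.lift (fun x => ext Ω (FreeGroup.of x)) (FreeGroup.mk L) y0
        = ⟨FreeGroup.mk L • (y0 : Y), hL⟩ := Subtype.ext ih'
    rw [hy]
    cases b with
    | true =>
      have h1 : FreeGroup.mk [(x, true)] = FreeGroup.of x := rfl
      rw [h1] at hxL ⊢
      rw [FreeGroup.lift_apply_of, ext_apply _ _ _ hxL]
    | false =>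
      have h1 : FreeGroup.mk [(x, false)] = (FreeGroup.of x)⁻¹ := rfl
      rw [h1] at hxL ⊢
      rw [map_inv, FreeGroup.lift_apply_of, ext_symm_apply _ _ _ hxL]

theorem fi_comap {G G' : Type*} [Group G] [Group G'] (f : G →* G') (H : Subgroup G')
    (h : H.FiniteIndex) : (H.comap f).FiniteIndex := by
  refine ⟨?_⟩
  rw [Subgroup.index_comap]
  exact (inferInstance : (H.subgroupOf f.range).FiniteIndex).index_ne_zero

theorem fg_map {G G' : Type*} [Group G] [Group G'] (f : G →* G') (H : Subgroup G)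
    (h : H.FG) : (H.map f).FG := by
  classical
  obtain ⟨T, hT⟩ := h
  refine ⟨T.image f, ?_⟩
  rw [Finset.coe_image, ← hT, MonoidHom.map_closure]

/-- M. Hall's theorem for `FreeGroup X` -/
theorem mhallF {X : Type*} (B : Subgroup (FreeGroup X)) (hB : B.FG) (hne : B ≠ ⊤) :
    ∃ L : Subgroup (FreeGroup X), B ≤ L ∧ L ≠ ⊤ ∧ L.FiniteIndex := by
  classical
  obtain ⟨T, hT⟩ := hB
  obtain ⟨a, ha⟩ : ∃ a, a ∉ B := by
    by_contra hcon
    push Not at hcon
    exact hne (Subgroup.eq_top_iff' B |>.2 hcon)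
  let y0 : FreeGroup X ⧸ B := ((1 : FreeGroup X) : FreeGroup X ⧸ B)
  let T' : Finset (FreeGroup X) := insert a (insert 1 T)
  let Ω : Finset (FreeGroup X ⧸ B) := T'.biUnion
    (fun t => ((t.toWord.tails).map (fun L => FreeGroup.mk L • y0)).toFinset)
  have hΩ : ∀ t ∈ T', ∀ L' : List (X × Bool), L' <:+ t.toWord → FreeGroup.mk L' • y0 ∈ Ω := by
    intro t ht L' hL'
    refine Finset.mem_biUnion.2 ⟨t, ht, ?_⟩
    rw [List.mem_toFinset, List.mem_map]
    exact ⟨L', (List.mem_tails _ _).2 hL', rfl⟩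
  have hy0 : y0 ∈ Ω := by
    have := hΩ 1 (by simp [T']) [] (List.nil_suffix)
    rwa [show FreeGroup.mk ([] : List (X × Bool)) = 1 from rfl, one_smul] at this
  let ω0 : Ω := ⟨y0, hy0⟩
  let φ : FreeGroup X →* Equiv.Perm Ω := FreeGroup.lift (fun x => ext Ω (FreeGroup.of x))
  have hφ : ∀ t ∈ T', ((φ t ω0 : Ω) : FreeGroup X ⧸ B) = t • y0 := by
    intro t ht
    have := path Ω ω0 t.toWord (hΩ t ht)
    rwa [FreeGroup.mk_toWord] at this
  let L : Subgroup (FreeGroup X) := (MulAction.stabilizer (Equiv.Perm Ω) ω0).comap φ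
  have hLmem : ∀ g, g ∈ L ↔ φ g ω0 = ω0 := fun g => Iff.rfl
  have hcos : ∀ g : FreeGroup X, g • y0 = y0 ↔ g ∈ B := by
    intro g
    show ((g * 1 : FreeGroup X) : FreeGroup X ⧸ B) = ((1 : FreeGroup X) : FreeGroup X ⧸ B) ↔ g ∈ B
    rw [mul_one, QuotientGroup.eq, mul_one, inv_mem_iff]
  refine ⟨L, ?_, ?_, ?_⟩
  · rw [← hT, Subgroup.closure_le]
    intro t ht
    have ht' : t ∈ B := by rw [← hT]; exact Subgroup.subset_closure ht
    show φ t ω0 = ω0
    apply Subtype.ext
    rw [hφ t (by simp [T', Finset.mem_coe.1 ht])]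
    exact (hcos t).2 ht'
  · intro htop
    have h1 : a ∈ L := by rw [htop]; exact Subgroup.mem_top a
    have h2 : ((φ a ω0 : Ω) : FreeGroup X ⧸ B) = y0 := congrArg Subtype.val ((hLmem a).1 h1)
    rw [hφ a (by simp [T'])] at h2
    exact ha ((hcos a).1 h2)
  · have : (MulAction.stabilizer (Equiv.Perm Ω) ω0).FiniteIndex := inferInstance
    exact fi_comap _ _ this

/-- M. Hall's theorem -/
theorem mhall {A : Type*} [Group A] [IsFreeGroup A] (B : Subgroup A) (hB : B.FG) (hne : B ≠ ⊤) :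
    ∃ L : Subgroup A, B ≤ L ∧ L ≠ ⊤ ∧ L.FiniteIndex := by
  let e : A ≃* FreeGroup (IsFreeGroup.Generators A) := IsFreeGroup.toFreeGroup A
  have hB' : (B.map e.toMonoidHom).FG := fg_map _ _ hB
  have hne' : B.map e.toMonoidHom ≠ ⊤ := by
    intro h
    apply hne
    rw [eq_top_iff]
    intro x _
    have : e x ∈ B.map e.toMonoidHom := by rw [h]; exact Subgroup.mem_top _
    obtain ⟨y, hy, hxy⟩ := this
    have : y = x := e.injective hxy
    rwa [← this]
  obtain ⟨L, h1, h2, h3⟩ := mhallF _ hB' hne'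
  refine ⟨L.comap e.toMonoidHom, fun x hx => h1 ⟨x, hx, rfl⟩, ?_, fi_comap _ _ h3⟩
  intro h
  apply h2
  rw [eq_top_iff]
  intro x _
  have : e.symm x ∈ L.comap e.toMonoidHom := by rw [h]; exact Subgroup.mem_top _
  have h4 : e (e.symm x) ∈ L := this
  rwa [e.apply_symm_apply] at h4

end Pool.Agent.Helper67.VF
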